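import Pool.Agent.Lib.BcrP.PNum
import Pool.Agent.Lib.BcrU.GTree

/-!
MODULE PState (170 lines). States and structures.

* `st_union`: `card`: `(A ∪ L.toFinset).card ≤ A.card + L.length` (`card_union_le`, `List.toFinset_card_le`). `path`: members of `A` from `hX`
  (`A ⊆ X`), members of `L` from `hL`. `con`: `rl L ⊔ rel A ≤ rel (A ∪ L.toFinset)` (`Relation.EqvGen.mono`).
* `exists_st`: `X = (univ.erase i0).image fun i => (i0, i, Q i)` where `Q i` is the set of edges of a walk from `t i0 = r` to `t i` (`conn`: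
  the walk itself). `card ≤ card ι - 1`; `i` and `j` are connected through `i0`.
* `opt_le_state`: `Y = X.biUnion fun f => f.2.2`. `conn G Y r (t i)` for all `i`: induction on `EqvGen (rel X) i0 i` (`conn` is an
  equivalence relation: nil walk, `reverse`, `append`; each link gives a walk with edges in `f.2.2 ⊆ Y`). `opt_le_conn` (file GTree):
  `OPT ≤ ec c Y = ∑_{e ∈ Y} c e`, and `e ∈ Y ↔ uX X e ≠ 0`, so `c e * (1 - 0 ^ uX X e) = c e` on `Y`, `0` outside
  (`Finset.sum_subset`/`sum_ite`; `0 ^ 0 = 1`, `0 ^ n = 0`).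
* `sr_single`: `S = {i}`, `L = []`. `conn_nil`: the walk `nil`.
* `conn_union`: reverse and append; edges of the union.
* `sr_join`: length `1 + (|L₁| + |L₂|)`, `(S₁ ∪ S₂).card = S₁.card + S₂.card`. `con`: inside `S₁`, `S₂` by `EqvGen.mono`; across through the new
  link `b₁ - b₂` (`trans`, `symm`).
* `conn_edge`: append the edge.
-/

namespace BcrP

open Finset BcrU Bcr3

variable {ι V : Type} [Fintype ι] [DecidableEq ι] [DecidableEq V] {G : SimpleGraph V}
  {t : ι → V}

private theorem PState_eqvGen_mono {α : Type} {r p : α → α → Prop} {a b : α}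
    (hrp : ∀ a b, r a b → p a b) (h : Relation.EqvGen r a b) : Relation.EqvGen p a b := by
  induction h with
  | rel a b h => exact Relation.EqvGen.rel _ _ (hrp a b h)
  | refl a => exact Relation.EqvGen.refl _
  | symm a b _ ih => exact ih.symm
  | trans a b c _ _ ih₁ ih₂ => exact Relation.EqvGen.trans _ _ _ ih₁ ih₂

private theorem PState_conn_symm {Q : Finset (Sym2 V)} {a b : V} (h : conn G Q a b) :
    conn G Q b a := by
  obtain ⟨w, hw⟩ := h
  refine ⟨w.reverse, ?_⟩
  intro e he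
  rw [SimpleGraph.Walk.edges_reverse, List.mem_reverse] at he
  exact hw e he

private theorem PState_conn_trans {Q : Finset (Sym2 V)} {a b c : V} (h : conn G Q a b)
    (h' : conn G Q b c) : conn G Q a c := by
  obtain ⟨w, hw⟩ := h
  obtain ⟨w', hw'⟩ := h'
  refine ⟨w.append w', ?_⟩
  intro e he
  rw [SimpleGraph.Walk.edges_append, List.mem_append] at he
  rcases he with he | he
  · exact hw e he
  · exact hw' e he

private theorem PState_conn_mono {Q Q' : Finset (Sym2 V)} {a b : V} (hQ : Q ⊆ Q')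
    (h : conn G Q a b) : conn G Q' a b := by
  obtain ⟨w, hw⟩ := h
  exact ⟨w, fun e he => hQ (hw e he)⟩

theorem st_union {A X : Finset (Lk ι V)} (hX : St G t X) (hA : A ⊆ X) {L : List (Lk ι V)}
    (hL : ∀ f ∈ L, conn G f.2.2 (t f.1) (t f.2.1))
    (hcard : A.card + L.length + 1 ≤ Fintype.card ι)
    (hcon : ∀ i j, Relation.EqvGen (rl L ⊔ rel A) i j) : St G t (A ∪ L.toFinset) := by
  refine ⟨?_, ?_, ?_⟩
  · have h1 := Finset.card_union_le A L.toFinset
    have h2 := List.toFinset_card_le L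
    omega
  · intro f hf
    rcases Finset.mem_union.1 hf with h | h
    · exact hX.path f (hA h)
    · exact hL f (List.mem_toFinset.1 h)
  · intro i j
    refine PState_eqvGen_mono ?_ (hcon i j)
    intro a b h
    rcases h with h | h
    · obtain ⟨f, hf, h1, h2⟩ := h
      exact ⟨f, Finset.mem_union_right _ (List.mem_toFinset.2 hf), h1, h2⟩
    · obtain ⟨f, hf, h1, h2⟩ := h
      exact ⟨f, Finset.mem_union_left _ hf, h1, h2⟩

theorem exists_st {r : V} (ht : ∀ i, G.Reachable r (t i)) {i0 : ι} (hi0 : t i0 = r) :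
    ∃ X : Finset (Lk ι V), St G t X := by
  have hw : ∀ i, ∃ Q : Finset (Sym2 V), conn G Q (t i0) (t i) := by
    intro i
    rw [hi0]
    obtain ⟨w⟩ := ht i
    exact ⟨w.edges.toFinset, w, fun e he => List.mem_toFinset.2 he⟩
  choose Q hQ using hw
  refine ⟨(univ.erase i0).image fun i => (i0, i, Q i), ?_, ?_, ?_⟩
  · have h1 := Finset.card_image_le (s := univ.erase i0) (f := fun i => (i0, i, Q i))
    rw [Finset.card_erase_of_mem (Finset.mem_univ _), Finset.card_univ] at h1
    have h2 : 0 < Fintype.card ι := Fintype.card_pos_iff.2 ⟨i0⟩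
    omega
  · intro f hf
    obtain ⟨i, _, rfl⟩ := Finset.mem_image.1 hf
    exact hQ i
  · have h1 : ∀ i, Relation.EqvGen (rel ((univ.erase i0).image fun i => (i0, i, Q i))) i0 i := by
      intro i
      by_cases h : i = i0
      · rw [h]
        exact Relation.EqvGen.refl _
      · refine Relation.EqvGen.rel _ _ ⟨(i0, i, Q i), ?_, rfl, rfl⟩
        exact Finset.mem_image.2 ⟨i, Finset.mem_erase.2 ⟨h, Finset.mem_univ _⟩, rfl⟩
    intro i j
    exact Relation.EqvGen.trans _ _ _ (h1 i).symm (h1 j)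

theorem opt_le_state [Fintype V] {c : Sym2 V → ℝ} (hc : ∀ e, 0 ≤ c e) {R : Finset V} {r : V}
    (hr : r ∈ R) (hsurj : ∀ v ∈ R, ∃ i, t i = v) {X : Finset (Lk ι V)} (hX : St G t X) :
    OPT G c R ≤ Ph c 0 (uX X) := by
  have hconn : ∀ i j, conn G (X.biUnion fun f => f.2.2) (t i) (t j) := by
    intro i j
    have h := hX.con i j
    induction h with
    | rel a b h =>
      obtain ⟨f, hf, h1, h2⟩ := h
      rw [← h1, ← h2]
      refine PState_conn_mono ?_ (hX.path f hf)
      intro e he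
      exact Finset.mem_biUnion.2 ⟨f, hf, he⟩
    | refl a => exact ⟨SimpleGraph.Walk.nil, by simp⟩
    | symm a b _ ih => exact PState_conn_symm ih
    | trans a b c _ _ ih₁ ih₂ => exact PState_conn_trans ih₁ ih₂
  have h1 : OPT G c R ≤ ec c (X.biUnion fun f => f.2.2) := by
    refine opt_le_conn hc hr ?_
    intro v hv
    obtain ⟨i, rfl⟩ := hsurj v hv
    obtain ⟨j, hj⟩ := hsurj r hr
    rw [← hj]
    exact hconn j i
  refine h1.trans (le_of_eq ?_)
  unfold ec Ph
  rw [← Finset.sum_subset (Finset.subset_univ (X.biUnion fun f => f.2.2))]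
  · refine Finset.sum_congr rfl ?_
    intro e he
    obtain ⟨f, hf, hef⟩ := Finset.mem_biUnion.1 he
    have h2 : uX X e ≠ 0 := by
      unfold uX
      rw [Finset.card_ne_zero]
      exact ⟨f, Finset.mem_filter.2 ⟨hf, hef⟩⟩
    rw [zero_pow h2, sub_zero, mul_one]
  · intro e _ he
    have h2 : uX X e = 0 := by
      unfold uX
      rw [Finset.card_eq_zero, Finset.filter_eq_empty_iff]
      intro f hf hef
      exact he (Finset.mem_biUnion.2 ⟨f, hf, hef⟩)
    rw [h2, pow_zero, sub_self, mul_zero]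

omit [Fintype ι] [DecidableEq V] in
theorem sr_single (i : ι) : Sr G t {i} ([] : List (Lk ι V)) := by
  refine ⟨⟨i, Finset.mem_singleton_self i⟩, ?_, ?_, ?_⟩
  · simp
  · intro f hf
    exact absurd hf List.not_mem_nil
  · intro a ha b hb
    rw [Finset.mem_singleton.1 ha, Finset.mem_singleton.1 hb]
    exact Relation.EqvGen.refl _

omit [DecidableEq V] in
theorem conn_nil (Q : Finset (Sym2 V)) (v : V) : conn G Q v v := by
  exact ⟨SimpleGraph.Walk.nil, by simp⟩

theorem conn_union {Q₁ Q₂ : Finset (Sym2 V)} {a b v : V} (h₁ : conn G Q₁ a v)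
    (h₂ : conn G Q₂ b v) : conn G (Q₁ ∪ Q₂) a b := by
  exact PState_conn_trans (PState_conn_mono Finset.subset_union_left h₁)
    (PState_conn_symm (PState_conn_mono Finset.subset_union_right h₂))

theorem conn_edge {Q : Finset (Sym2 V)} {a u v : V} (h : conn G Q a v) (huv : G.Adj u v) :
    conn G (insert s(u, v) Q) a u := by
  refine PState_conn_trans (PState_conn_mono (Finset.subset_insert _ _) h) ?_
  refine ⟨SimpleGraph.Walk.cons huv.symm SimpleGraph.Walk.nil, ?_⟩
  intro e he
  rw [SimpleGraph.Walk.edges_cons, SimpleGraph.Walk.edges_nil, List.mem_singleton] at he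
  rw [he, Sym2.eq_swap]
  exact Finset.mem_insert_self _ _

omit [DecidableEq V] in
theorem exists_conn {a v : V} (h : G.Reachable a v) : ∃ Q : Finset (Sym2 V), conn G Q a v := by
  classical
  obtain ⟨w⟩ := h
  exact ⟨w.edges.toFinset, w, fun e he => List.mem_toFinset.2 he⟩

omit [Fintype ι] [DecidableEq V] in
theorem sr_join {S₁ S₂ : Finset ι} {L₁ L₂ : List (Lk ι V)} (h₁ : Sr G t S₁ L₁)
    (h₂ : Sr G t S₂ L₂) (hd : Disjoint S₁ S₂) {b₁ b₂ : ι} (hb₁ : b₁ ∈ S₁) (hb₂ : b₂ ∈ S₂)
    {P : Finset (Sym2 V)} (hP : conn G P (t b₁) (t b₂)) :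
    Sr G t (S₁ ∪ S₂) ((b₁, b₂, P) :: (L₁ ++ L₂)) := by
  have hA : ∀ i ∈ S₁, Relation.EqvGen (rl ((b₁, b₂, P) :: (L₁ ++ L₂))) i b₁ := by
    intro i hi
    refine PState_eqvGen_mono ?_ (h₁.con i hi b₁ hb₁)
    rintro a b ⟨f, hf, h3, h4⟩
    exact ⟨f, List.mem_cons_of_mem _ (List.mem_append_left _ hf), h3, h4⟩
  have hB : ∀ i ∈ S₂, Relation.EqvGen (rl ((b₁, b₂, P) :: (L₁ ++ L₂))) i b₂ := by
    intro i hi
    refine PState_eqvGen_mono ?_ (h₂.con i hi b₂ hb₂)
    rintro a b ⟨f, hf, h3, h4⟩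
    exact ⟨f, List.mem_cons_of_mem _ (List.mem_append_right _ hf), h3, h4⟩
  have hL : Relation.EqvGen (rl ((b₁, b₂, P) :: (L₁ ++ L₂))) b₁ b₂ :=
    Relation.EqvGen.rel _ _ ⟨(b₁, b₂, P), List.mem_cons_self, rfl, rfl⟩
  have hC : ∀ i ∈ S₁ ∪ S₂, Relation.EqvGen (rl ((b₁, b₂, P) :: (L₁ ++ L₂))) i b₁ := by
    intro i hi
    rcases Finset.mem_union.1 hi with h | h
    · exact hA i h
    · exact Relation.EqvGen.trans _ _ _ (hB i h) hL.symm
  refine ⟨⟨b₁, Finset.mem_union_left _ hb₁⟩, ?_, ?_, ?_⟩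
  · rw [Finset.card_union_of_disjoint hd, List.length_cons, List.length_append]
    have e1 := h₁.len
    have e2 := h₂.len
    omega
  · intro f hf
    rcases List.mem_cons.1 hf with h | h
    · rw [h]
      exact hP
    · rcases List.mem_append.1 h with h | h
      · exact h₁.path f h
      · exact h₂.path f h
  · intro i hi j hj
    exact Relation.EqvGen.trans _ _ _ (hC i hi) (hC j hj).symm

end BcrP
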