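import Pool.Agent.Lib.BcrP.PCost
import Pool.Agent.Lib.BcrP.PState
import Pool.Agent.Lib.BcrU.LUlt

/-!
MODULE PVec (200 lines). The vector `eP` of stable levels is admissible, Lipschitz and zero at the terminals.

This is an ADAPTATION of the proved file Pool/Agent/Lib/BcrU/SAdm.lean (same proof, other structures). Hypothesis `hst`: stable levels.
Write `x = a + y - mu S` with `a = AL c r (us L)`, `y = ∑ e ∈ Q, c e * r ^ us L e`; `mu S ≤ a` (`hst`), `0 ≤ y` (`yy_nonneg`). The set is nonempty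
for nonempty `B` (`i ∈ B`, `S = {i}`, `L = []`, `b = i`, `Q` from `exists_conn`) and bounded below by `0`.
* `nn`, `mono` as in SAdm.
* `pair`: elements `x₁` (of `B`: `S₁, L₁, b₁, Q₁`), `x₂` (of `C`); `S₁, S₂` disjoint (`lev i i = 0`); `L' = (b₁, b₂, Q₁ ∪ Q₂) :: (L₁ ++ L₂)` is a
  structure on `S₁ ∪ S₂` (`sr_join`, `conn_union`), `mu (S₁ ∪ S₂) ≤ AL (us L') ≤ (a₁ + y₁) + (a₂ + y₂)` (`hst`, `al_pair`), and `mu_union`:
  `mu S₁ + mu S₂ + ε (k+1) ≤ mu (S₁ ∪ S₂)`. So `ε (k+1) ≤ x₁ + x₂`; take infima.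
* `hub`: the element of `B ∪ C` given by `S₁ ∪ S₂, L', b₁, Q₁`: `AL (us L') + y' - mu (S₁ ∪ S₂) ≤ x₁ + x₂ - ε (k+1) + r y₁` (`al_hub`) and
  `y₁ ≤ x₁`. So `eP (B ∪ C) ≤ (1 + r) x₁ + x₂ - ε (k+1)`; take infima as in SAdm.
* `eP_lip`: from an element for `v` with `Q` get one for `u` with `insert s(u,v) Q` (`conn_edge`, `yy_insert`); symmetric (`Sym2.eq_swap`).
* `eP_zero`: the element `S = {i}`, `L = []`, `b = i`, `Q = ∅` is `0` (`al_nil`, `mu_singleton`, `conn_nil`).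
-/

namespace BcrP

open Finset BcrU Bcr3

variable {ι V : Type} [Fintype ι] [DecidableEq ι] [Fintype V] [DecidableEq V]
  {G : SimpleGraph V} {t : ι → V} {c : Sym2 V → ℝ} {r : ℝ} {ε : ℝ} {K : ℕ}
  {lev : ι → ι → ℕ}

private theorem pvec_ne (c : Sym2 V → ℝ) (r : ℝ) (lev : ι → ι → ℕ) (K : ℕ) (ε : ℝ) {v : V}
    (hv : ∀ i, G.Reachable (t i) v) {B : Finset ι} (hB : B.Nonempty) :
    {x | ∃ (S : Finset ι) (L : List (Lk ι V)) (b : ι) (Q : Finset (Sym2 V)), S ⊆ B ∧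
      Sr G t S L ∧ b ∈ S ∧ conn G Q (t b) v ∧
      x = AL c r (us L) + (∑ e ∈ Q, c e * r ^ us L e) - mu lev K ε S}.Nonempty := by
  obtain ⟨i, hi⟩ := hB
  obtain ⟨Q, hQ⟩ := exists_conn (hv i)
  exact ⟨_, {i}, [], i, Q, Finset.singleton_subset_iff.2 hi, sr_single i,
    Finset.mem_singleton_self i, hQ, rfl⟩

private theorem pvec_bdd (hc : ∀ e, 0 ≤ c e) (hr0 : 0 ≤ r)
    (hst : ∀ (S : Finset ι) (L : List (Lk ι V)), Sr G t S L → mu lev K ε S ≤ AL c r (us L))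
    (v : V) (B : Finset ι) :
    BddBelow {x | ∃ (S : Finset ι) (L : List (Lk ι V)) (b : ι) (Q : Finset (Sym2 V)), S ⊆ B ∧
      Sr G t S L ∧ b ∈ S ∧ conn G Q (t b) v ∧
      x = AL c r (us L) + (∑ e ∈ Q, c e * r ^ us L e) - mu lev K ε S} := by
  refine ⟨0, ?_⟩
  rintro x ⟨S, L, b, Q, _, h, _, _, rfl⟩
  have h1 := hst S L h
  have h2 := yy_nonneg hc hr0 L Q
  linarith

private theorem pvec_le (hc : ∀ e, 0 ≤ c e) (hr0 : 0 ≤ r)
    (hst : ∀ (S : Finset ι) (L : List (Lk ι V)), Sr G t S L → mu lev K ε S ≤ AL c r (us L))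
    {v : V} {B S : Finset ι} {L : List (Lk ι V)} {b : ι} {Q : Finset (Sym2 V)} (hS : S ⊆ B)
    (h : Sr G t S L) (hb : b ∈ S) (hQ : conn G Q (t b) v) :
    eP G c t r lev K ε v B ≤
      AL c r (us L) + (∑ e ∈ Q, c e * r ^ us L e) - mu lev K ε S :=
  csInf_le (pvec_bdd hc hr0 hst v B) ⟨S, L, b, Q, hS, h, hb, hQ, rfl⟩

private theorem pvec_ge {v : V} (hv : ∀ i, G.Reachable (t i) v) {B : Finset ι}
    (hB : B.Nonempty) {x : ℝ}
    (h : ∀ (S : Finset ι) (L : List (Lk ι V)) (b : ι) (Q : Finset (Sym2 V)), S ⊆ B →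
      Sr G t S L → b ∈ S → conn G Q (t b) v →
      x ≤ AL c r (us L) + (∑ e ∈ Q, c e * r ^ us L e) - mu lev K ε S) :
    x ≤ eP G c t r lev K ε v B := by
  refine le_csInf (pvec_ne c r lev K ε hv hB) ?_
  rintro y ⟨S, L, b, Q, hS, hL, hb, hQ, rfl⟩
  exact h S L b Q hS hL hb hQ

omit [Fintype ι] in
private theorem pvec_disj (hU : Ult K lev) {k : ℕ} {B C S₁ S₂ : Finset ι} (h1 : S₁ ⊆ B)
    (h2 : S₂ ⊆ C) (hc : ∀ i ∈ B, ∀ j ∈ C, k < lev i j) : Disjoint S₁ S₂ := by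
  rw [Finset.disjoint_left]
  intro i hi hj
  have h := hc i (h1 hi) i (h2 hj)
  rw [hU.refl] at h
  exact absurd h (Nat.not_lt_zero _)

theorem eP_adm (hc : ∀ e, 0 ≤ c e) (hr0 : 0 ≤ r) (hr1 : r ≤ 1) (hε : 0 ≤ ε) (hU : Ult K lev)
    (hst : ∀ (S : Finset ι) (L : List (Lk ι V)), Sr G t S L → mu lev K ε S ≤ AL c r (us L))
    {v : V} (hv : ∀ i, G.Reachable (t i) v) : Adm lev ε r (eP G c t r lev K ε v) := by
  refine ⟨?_, ?_, ?_, ?_⟩
  · intro B hB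
    refine pvec_ge hv hB fun S L b Q hS hL hb hQ => ?_
    have h1 := hst S L hL
    have h2 := yy_nonneg hc hr0 L Q
    linarith
  · intro B C hB hBC
    refine pvec_ge hv hB fun S L b Q hS hL hb hQ => ?_
    exact pvec_le hc hr0 hst (hS.trans hBC) hL hb hQ
  · intro k B C hB hC lB lC hcr
    have key : ∀ (S₁ : Finset ι) (L₁ : List (Lk ι V)) (b₁ : ι) (Q₁ : Finset (Sym2 V)), S₁ ⊆ B →
        Sr G t S₁ L₁ → b₁ ∈ S₁ → conn G Q₁ (t b₁) v →
        ∀ (S₂ : Finset ι) (L₂ : List (Lk ι V)) (b₂ : ι) (Q₂ : Finset (Sym2 V)), S₂ ⊆ C →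
        Sr G t S₂ L₂ → b₂ ∈ S₂ → conn G Q₂ (t b₂) v →
        ε * ((k : ℝ) + 1) ≤
          (AL c r (us L₁) + (∑ e ∈ Q₁, c e * r ^ us L₁ e) - mu lev K ε S₁) +
          (AL c r (us L₂) + (∑ e ∈ Q₂, c e * r ^ us L₂ e) - mu lev K ε S₂) := by
      intro S₁ L₁ b₁ Q₁ hS1 h1 hb1 hQ1 S₂ L₂ b₂ Q₂ hS2 h2 hb2 hQ2
      have hdis := pvec_disj hU hS1 hS2 hcr
      have h3 := hst _ _ (sr_join h1 h2 hdis hb1 hb2 (conn_union hQ1 hQ2))
      have h4 := mu_union hU hε h1.ne h2.ne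
        (fun i hi j hj => lB i (hS1 hi) j (hS1 hj)) (fun i hi j hj => lC i (hS2 hi) j (hS2 hj))
        (fun i hi j hj => hcr i (hS1 hi) j (hS2 hj))
      have h5 := al_pair hc hr0 hr1 L₁ L₂ Q₁ Q₂ b₁ b₂
      linarith
    have hA : ε * ((k : ℝ) + 1) - eP G c t r lev K ε v C ≤ eP G c t r lev K ε v B := by
      refine pvec_ge hv hB fun S₁ L₁ b₁ Q₁ hS1 h1 hb1 hQ1 => ?_
      have hB' : ε * ((k : ℝ) + 1) -
          (AL c r (us L₁) + (∑ e ∈ Q₁, c e * r ^ us L₁ e) - mu lev K ε S₁) ≤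
          eP G c t r lev K ε v C := by
        refine pvec_ge hv hC fun S₂ L₂ b₂ Q₂ hS2 h2 hb2 hQ2 => ?_
        have := key S₁ L₁ b₁ Q₁ hS1 h1 hb1 hQ1 S₂ L₂ b₂ Q₂ hS2 h2 hb2 hQ2
        linarith
      linarith
    linarith
  · intro k B C hB hC lB lC hcr
    have key : ∀ (S₁ : Finset ι) (L₁ : List (Lk ι V)) (b₁ : ι) (Q₁ : Finset (Sym2 V)), S₁ ⊆ B →
        Sr G t S₁ L₁ → b₁ ∈ S₁ → conn G Q₁ (t b₁) v →
        ∀ (S₂ : Finset ι) (L₂ : List (Lk ι V)) (b₂ : ι) (Q₂ : Finset (Sym2 V)), S₂ ⊆ C →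
        Sr G t S₂ L₂ → b₂ ∈ S₂ → conn G Q₂ (t b₂) v →
        eP G c t r lev K ε v (B ∪ C) ≤
          (1 + r) * (AL c r (us L₁) + (∑ e ∈ Q₁, c e * r ^ us L₁ e) - mu lev K ε S₁) +
          (AL c r (us L₂) + (∑ e ∈ Q₂, c e * r ^ us L₂ e) - mu lev K ε S₂) -
          ε * ((k : ℝ) + 1) := by
      intro S₁ L₁ b₁ Q₁ hS1 h1 hb1 hQ1 S₂ L₂ b₂ Q₂ hS2 h2 hb2 hQ2
      have hdis := pvec_disj hU hS1 hS2 hcr
      have h3 := pvec_le (lev := lev) (K := K) (ε := ε) hc hr0 hst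
        (Finset.union_subset_union hS1 hS2)
        (sr_join h1 h2 hdis hb1 hb2 (conn_union hQ1 hQ2))
        (Finset.mem_union_left S₂ hb1) hQ1
      have h4 := mu_union hU hε h1.ne h2.ne
        (fun i hi j hj => lB i (hS1 hi) j (hS1 hj)) (fun i hi j hj => lC i (hS2 hi) j (hS2 hj))
        (fun i hi j hj => hcr i (hS1 hi) j (hS2 hj))
      have h5 := al_hub hc hr0 hr1 L₁ L₂ Q₁ Q₂ b₁ b₂
      have h7 : r * (∑ e ∈ Q₁, c e * r ^ us L₁ e) ≤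
          r * (AL c r (us L₁) + (∑ e ∈ Q₁, c e * r ^ us L₁ e) - mu lev K ε S₁) := by
        refine mul_le_mul_of_nonneg_left ?_ hr0
        have := hst _ _ h1
        linarith
      have h8 : (1 + r) * (AL c r (us L₁) + (∑ e ∈ Q₁, c e * r ^ us L₁ e) - mu lev K ε S₁) =
        (AL c r (us L₁) + (∑ e ∈ Q₁, c e * r ^ us L₁ e) - mu lev K ε S₁) +
        r * (AL c r (us L₁) + (∑ e ∈ Q₁, c e * r ^ us L₁ e) - mu lev K ε S₁) := by ring
      rw [h8]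
      linarith
    have hs1 : 0 < 1 + r := by linarith
    have hA : (eP G c t r lev K ε v (B ∪ C) + ε * ((k : ℝ) + 1) -
        eP G c t r lev K ε v C) / (1 + r) ≤ eP G c t r lev K ε v B := by
      refine pvec_ge hv hB fun S₁ L₁ b₁ Q₁ hS1 h1 hb1 hQ1 => ?_
      rw [div_le_iff₀ hs1]
      have hB' : eP G c t r lev K ε v (B ∪ C) + ε * ((k : ℝ) + 1) -
          (1 + r) * (AL c r (us L₁) + (∑ e ∈ Q₁, c e * r ^ us L₁ e) - mu lev K ε S₁) ≤
          eP G c t r lev K ε v C := by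
        refine pvec_ge hv hC fun S₂ L₂ b₂ Q₂ hS2 h2 hb2 hQ2 => ?_
        have := key S₁ L₁ b₁ Q₁ hS1 h1 hb1 hQ1 S₂ L₂ b₂ Q₂ hS2 h2 hb2 hQ2
        linarith
      have h9 : (AL c r (us L₁) + (∑ e ∈ Q₁, c e * r ^ us L₁ e) - mu lev K ε S₁) * (1 + r) =
        (1 + r) * (AL c r (us L₁) + (∑ e ∈ Q₁, c e * r ^ us L₁ e) - mu lev K ε S₁) :=
        mul_comm _ _
      rw [h9]
      linarith
    rw [div_le_iff₀ hs1] at hA
    have h10 : eP G c t r lev K ε v B * (1 + r) =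
      eP G c t r lev K ε v B + r * eP G c t r lev K ε v B := by ring
    rw [h10] at hA
    linarith

private theorem pvec_lip1 (hc : ∀ e, 0 ≤ c e) (hr0 : 0 ≤ r) (hr1 : r ≤ 1)
    (hst : ∀ (S : Finset ι) (L : List (Lk ι V)), Sr G t S L → mu lev K ε S ≤ AL c r (us L))
    {u v : V} (huv : G.Adj u v) (hv : ∀ i, G.Reachable (t i) v) {B : Finset ι}
    (hB : B.Nonempty) :
    eP G c t r lev K ε u B ≤ eP G c t r lev K ε v B + c s(u, v) := by
  have h : eP G c t r lev K ε u B - c s(u, v) ≤ eP G c t r lev K ε v B := by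
    refine pvec_ge hv hB fun S L b Q hS hL hb hQ => ?_
    have h1 := pvec_le (lev := lev) (K := K) (ε := ε) hc hr0 hst hS hL hb (conn_edge hQ huv)
    have h2 := yy_insert hc hr0 hr1 L Q s(u, v)
    linarith
  linarith

theorem eP_lip (hc : ∀ e, 0 ≤ c e) (hr0 : 0 ≤ r) (hr1 : r ≤ 1)
    (hst : ∀ (S : Finset ι) (L : List (Lk ι V)), Sr G t S L → mu lev K ε S ≤ AL c r (us L))
    {u v : V} (huv : G.Adj u v) (hv : ∀ i, G.Reachable (t i) v) {B : Finset ι}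
    (hB : B.Nonempty) :
    |eP G c t r lev K ε u B - eP G c t r lev K ε v B| ≤ c s(u, v) := by
  have hu : ∀ i, G.Reachable (t i) u := fun i => (hv i).trans huv.symm.reachable
  have h1 := pvec_lip1 (lev := lev) (K := K) (ε := ε) hc hr0 hr1 hst huv hv hB
  have h2 := pvec_lip1 (lev := lev) (K := K) (ε := ε) hc hr0 hr1 hst huv.symm hu hB
  rw [Sym2.eq_swap] at h2
  rw [abs_le]
  constructor <;> linarith

theorem eP_zero (hc : ∀ e, 0 ≤ c e) (hr0 : 0 ≤ r) (hU : Ult K lev)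
    (hst : ∀ (S : Finset ι) (L : List (Lk ι V)), Sr G t S L → mu lev K ε S ≤ AL c r (us L))
    (ht : ∀ i j, G.Reachable (t i) (t j)) {i : ι} {B : Finset ι} (hi : i ∈ B) :
    eP G c t r lev K ε (t i) B = 0 := by
  apply le_antisymm
  · have h1 := pvec_le (lev := lev) (K := K) (ε := ε) hc hr0 hst
      (Finset.singleton_subset_iff.2 hi) (sr_single (G := G) (t := t) i)
      (Finset.mem_singleton_self i) (conn_nil (G := G) ∅ (t i))
    rw [mu_singleton hU, al_nil, Finset.sum_empty] at h1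
    linarith
  · refine pvec_ge (fun j => ht j i) ⟨i, hi⟩ fun S L b Q hS hL hb hQ => ?_
    have h1 := hst S L hL
    have h2 := yy_nonneg hc hr0 L Q
    linarith

end BcrP
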