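import Pool.Agent.Lib.BcrP.PExch
import Pool.Agent.Lib.BcrP.PVec
import Pool.Agent.Lib.BcrU.Core

/-!
MODULE PBound (120 lines). The derivative of a minimal state is at most `LP / beta`.

`κ f = ⌊wt c s X f / ε⌋₊`, `K = X.sup κ` (so `κ f ≤ K`: `Finset.le_sup`), `lev = levX X κ` is `Ult K` (`levX_ult`, `hX.con`), stable by
`exch_stable`. Let `e v = eP G c t s lev K ε v` if `G.Reachable r v` and `e v = eP G c t s lev K ε r` otherwise. All are `Adm`
(`eP_adm`); for adjacent `u, v` both are reachable (`eP_lip`) or none is (difference `0 ≤ c`); `e (t i) B = 0` for `i ∈ B`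
(`eP_zero`, `t i` is reachable). `core` (file BcrU/Core.lean) gives `beta * mu lev K ε univ ≤ (1 + 2 ε/δ) val`; `md_le`:
`Md - ε card ι ≤ mu lev K ε univ`; `beta_pos`/`0 ≤ beta` (see how BcrU/Fin1.lean or Fin2.lean proves `0 ≤ beta` from `Des`: `beta_pos`).
PATTERN: Pool/Agent/Lib/BcrK/KTight2.lean (the same argument).
-/

namespace BcrP

open Finset BcrU Bcr3

variable {V : Type} [Fintype V] [DecidableEq V] {G : SimpleGraph V} {c : Sym2 V → ℝ}

theorem beta_nn {s : ℝ} {m q : ℕ} {θ : ℕ → ℝ} (hD : Des s m q θ) : 0 ≤ beta m q θ := by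
  unfold beta
  refine div_nonneg (add_nonneg (Finset.sum_nonneg fun j hj => (hD.pos j (mem_range.1 hj)).le)
    (mul_nonneg zero_le_two (Finset.sum_nonneg fun j hj =>
      (hD.pos j (lt_of_lt_of_le (mem_range.1 hj) hD.hq)).le))) (by positivity)

theorem state_bound (hc : ∀ e, 0 ≤ c e) {R : Finset V} {r : V} {x : V → V → ℝ}
    (hx : Feasible G R r x) {ι : Type} [Fintype ι] [DecidableEq ι] {t : ι → V}
    (htR : ∀ i, t i ∈ R) (ht : ∀ i, G.Reachable r (t i)) {i0 : ι} (hi0 : t i0 = r) {s : ℝ}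
    (hs0 : 0 ≤ s) (hs1 : s < 1) {X : Finset (Lk ι V)} (hX : St G t X)
    (hmin : ∀ Y : Finset (Lk ι V), St G t Y → Ph c s (uX X) ≤ Ph c s (uX Y)) {ε : ℝ}
    (hε : 0 < ε) {m q : ℕ} {θ : ℕ → ℝ} (hD : Des s m q θ) {δ : ℝ} (hδ : 0 < δ)
    (hcm : ∀ a, c a = 0 ∨ δ ≤ c a) :
    beta m q θ * (Md c s (uX X) - ε * (Fintype.card ι : ℝ)) ≤
      (1 + 2 * ε / δ) * ∑ u, ∑ v, c s(u, v) * x u v := by
  classical
  have : Nonempty ι := ⟨i0⟩
  obtain ⟨κ, hκ⟩ : ∃ κ : Lk ι V → ℕ, κ = fun f => ⌊wt c s X f / ε⌋₊ := ⟨_, rfl⟩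
  obtain ⟨K, hKd⟩ : ∃ K : ℕ, K = X.sup κ := ⟨_, rfl⟩
  have hK : ∀ f ∈ X, κ f ≤ K := fun f hf => by rw [hKd]; exact Finset.le_sup hf
  have hK' : ∀ f ∈ X, ⌊wt c s X f / ε⌋₊ ≤ K := fun f hf => by
    have := hK f hf
    rw [hκ] at this
    exact this
  have hU : Ult K (levX X κ) := levX_ult hK hX.con
  have hst : ∀ (S : Finset ι) (L : List (Lk ι V)), Sr G t S L →
      mu (levX X κ) K ε S ≤ AL c s (us L) := by
    intro S L hL
    have := exch_stable hc hs0 hs1 hX hmin hε hK' hL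
    rw [hκ]
    exact this
  have hmd : Md c s (uX X) ≤ mu (levX X κ) K ε univ + ε * Fintype.card ι := by
    have := md_le (r := s) (ε := ε) (K := K) hc hs0 hX hε hK'
    rw [hκ]
    exact this
  have hreach : ∀ v, G.Reachable r v → ∀ i, G.Reachable (t i) v :=
    fun v hv i => (ht i).symm.trans hv
  obtain ⟨e, he⟩ : ∃ e : V → Finset ι → ℝ, ∀ v, e v =
      if G.Reachable r v then eP G c t s (levX X κ) K ε v
      else eP G c t s (levX X κ) K ε r := ⟨_, fun _ => rfl⟩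
  have hA : ∀ v, Adm (levX X κ) ε s (e v) := by
    intro v
    rw [he v]
    split_ifs with h
    · exact eP_adm hc hs0 hs1.le hε.le hU hst (hreach v h)
    · exact eP_adm hc hs0 hs1.le hε.le hU hst (hreach r (SimpleGraph.Reachable.refl r))
  have hL : ∀ u v, G.Adj u v → ∀ B : Finset ι, B.Nonempty → |e u B - e v B| ≤ c s(u, v) := by
    intro u v huv B hB
    rw [he u, he v]
    by_cases h : G.Reachable r v
    · have hu : G.Reachable r u := h.trans huv.symm.reachable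
      rw [if_pos hu, if_pos h]
      exact eP_lip hc hs0 hs1.le hst huv (hreach v h) hB
    · have hu : ¬ G.Reachable r u := fun hu => h (hu.trans huv.reachable)
      rw [if_neg hu, if_neg h, sub_self, abs_zero]
      exact hc _
  have hz : ∀ i, ∀ B : Finset ι, i ∈ B → e (t i) B = 0 := by
    intro i B hi
    rw [he (t i), if_pos (ht i)]
    exact eP_zero hc hs0 hU hst (fun i j => hreach _ (ht j) i) hi
  have hcore := core hc hx htR hi0 hU hε hs0 hD hA hL hz hδ hcm
  refine le_trans (mul_le_mul_of_nonneg_left ?_ (beta_nn hD)) hcore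
  linarith

end BcrP
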