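import Pool.Agent.Lib.BcrP.PDefs
import Pool.Agent.Lib.BcrR.RRank

/-!
MODULE PClass (130 lines). Numbers of classes (`ncl`, `nclS`; `open Classical` images).

Write `C i = univ.filter fun j => EqvGen r i j`; `C i = C j ↔ EqvGen r i j`.
* `ncl_meet`: the classes of `r'` are unions of classes of `r` (`h`: `EqvGen r ≤ EqvGen r'`). Map the classes of `r` to the classes of
  `r'`: surjective; all the `nclS r S ≥ 1` classes which meet `S` go to one class. So `ncl r' ≤ (ncl r - nclS r S) + 1`.
  (For example: `univ.image C' = (univ.filter (C i ∉ S.image C)).image C' ∪ {C' i0}` with `i0 ∈ S`, and the first image has at most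
  `(univ.image C \ S.image C).card` elements. See the pattern `GQuot` (C) in Pool/Agent/Lib/BcrU/GQuot.lean.)
* `ncl_bot`: `EqvGen ⊥ i j ↔ i = j` (induction on `EqvGen`), so `C i = {i}` is injective. `nclS_bot` the same.
* `nclS_univ`: by definition (`rfl` or `congr`).
* `con_of_ncl`: if `ncl r ≤ 1` then `C i = C j` for all `i j` (`Finset.card_le_one`), so `EqvGen r i j`.
* `ncl_of_con`: all `C i` are equal, so `ncl r ≤ 1`; `1 ≤ ncl r` is `ncl_pos`.
-/

namespace BcrP

open Finset BcrR

variable {ι : Type} [Fintype ι]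

open Classical in
private noncomputable def PClass_C (r : ι → ι → Prop) (i : ι) : Finset ι :=
  univ.filter fun j => Relation.EqvGen r i j

private theorem PClass_mem {r : ι → ι → Prop} {i j : ι} :
    j ∈ PClass_C r i ↔ Relation.EqvGen r i j := by
  classical
  unfold PClass_C
  simp

private theorem PClass_eq {r : ι → ι → Prop} {i j : ι} :
    PClass_C r i = PClass_C r j ↔ Relation.EqvGen r i j := by
  constructor
  · intro h
    have h1 : j ∈ PClass_C r j := PClass_mem.mpr (Relation.EqvGen.refl _)
    rw [← h] at h1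
    exact PClass_mem.mp h1
  · intro h
    ext l
    rw [PClass_mem, PClass_mem]
    exact ⟨fun h' => (h.symm _ _).trans _ _ _ h', fun h' => h.trans _ _ _ h'⟩

open Classical in
private theorem PClass_ncl (r : ι → ι → Prop) : ncl r = (univ.image (PClass_C r)).card := rfl

open Classical in
private theorem PClass_nclS (r : ι → ι → Prop) (S : Finset ι) :
    nclS r S = (S.image (PClass_C r)).card := rfl

private theorem PClass_bot {i j : ι} (h : Relation.EqvGen (⊥ : ι → ι → Prop) i j) : i = j := by
  induction h with
  | rel _ _ h => exact absurd h (by simp)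
  | refl _ => rfl
  | symm _ _ _ ih => exact ih.symm
  | trans _ _ _ _ _ ih1 ih2 => exact ih1.trans ih2

private theorem PClass_inj : Function.Injective (PClass_C (⊥ : ι → ι → Prop)) := fun _ _ h =>
  PClass_bot (PClass_eq.mp h)

private theorem PClass_mono {r r' : ι → ι → Prop} (h : ∀ a b, r a b → Relation.EqvGen r' a b)
    {i j : ι} (hij : Relation.EqvGen r i j) : Relation.EqvGen r' i j := by
  induction hij with
  | rel _ _ h' => exact h _ _ h'
  | refl _ => exact Relation.EqvGen.refl _
  | symm _ _ _ ih => exact ih.symm _ _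
  | trans _ _ _ _ _ ih1 ih2 => exact ih1.trans _ _ _ ih2

theorem ncl_meet {r r' : ι → ι → Prop} (h : ∀ a b, r a b → Relation.EqvGen r' a b)
    {S : Finset ι} (hS : S.Nonempty) (hSS : ∀ a ∈ S, ∀ b ∈ S, Relation.EqvGen r' a b) :
    ncl r' + nclS r S ≤ ncl r + 1 := by
  classical
  obtain ⟨i0, hi0⟩ := hS
  rw [PClass_ncl, PClass_ncl, PClass_nclS]
  let g : Finset ι → Finset ι := fun B => univ.filter fun j => ∃ i ∈ B, Relation.EqvGen r' i j
  have hg : ∀ i, g (PClass_C r i) = PClass_C r' i := by
    intro i
    ext j
    rw [PClass_mem]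
    simp only [g, mem_filter, mem_univ, true_and]
    constructor
    · rintro ⟨l, hl, hlj⟩
      exact (PClass_mono h (PClass_mem.mp hl)).trans _ _ _ hlj
    · intro hij
      exact ⟨i, PClass_mem.mpr (Relation.EqvGen.refl _), hij⟩
  have hsub : univ.image (PClass_C r') ⊆
      insert (PClass_C r' i0) ((univ.image (PClass_C r) \ S.image (PClass_C r)).image g) := by
    intro B hB
    obtain ⟨i, -, rfl⟩ := mem_image.mp hB
    rw [mem_insert]
    by_cases hi : PClass_C r i ∈ S.image (PClass_C r)
    · left
      obtain ⟨a, ha, hai⟩ := mem_image.mp hi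
      rw [PClass_eq]
      exact (PClass_mono h (PClass_eq.mp hai.symm)).trans _ _ _ (hSS a ha i0 hi0)
    · right
      rw [mem_image]
      exact ⟨PClass_C r i, mem_sdiff.mpr ⟨mem_image_of_mem _ (mem_univ i), hi⟩, hg i⟩
  have h1 := card_le_card hsub
  have h2 := card_insert_le (PClass_C r' i0)
    ((univ.image (PClass_C r) \ S.image (PClass_C r)).image g)
  have h3 : ((univ.image (PClass_C r) \ S.image (PClass_C r)).image g).card ≤
      (univ.image (PClass_C r) \ S.image (PClass_C r)).card := card_image_le
  have h4 := card_sdiff_add_card_eq_card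
    (image_subset_image (f := PClass_C r) (subset_univ S))
  omega

theorem ncl_bot : ncl (⊥ : ι → ι → Prop) = Fintype.card ι := by
  classical
  rw [PClass_ncl, card_image_of_injective _ PClass_inj, card_univ]

theorem nclS_bot (S : Finset ι) : nclS (⊥ : ι → ι → Prop) S = S.card := by
  classical
  rw [PClass_nclS, card_image_of_injective _ PClass_inj]

theorem nclS_univ (r : ι → ι → Prop) : nclS r univ = ncl r := rfl

theorem con_of_ncl {r : ι → ι → Prop} (h : ncl r ≤ 1) (i j : ι) : Relation.EqvGen r i j := by
  classical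
  rw [PClass_ncl, card_le_one] at h
  exact PClass_eq.mp (h _ (mem_image_of_mem _ (mem_univ i)) _ (mem_image_of_mem _ (mem_univ j)))

theorem ncl_of_con [Nonempty ι] {r : ι → ι → Prop} (h : ∀ i j, Relation.EqvGen r i j) :
    ncl r = 1 := by
  classical
  apply le_antisymm
  · rw [PClass_ncl, card_le_one]
    intro a ha b hb
    obtain ⟨i, -, rfl⟩ := mem_image.mp ha
    obtain ⟨j, -, rfl⟩ := mem_image.mp hb
    exact PClass_eq.mpr (h i j)
  · rw [PClass_ncl, Nat.one_le_iff_ne_zero, Ne, card_eq_zero, image_eq_empty]
    exact univ_nonempty.ne_empty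

end BcrP
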