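import Pool.Agent.Lib.BcrP.PUse

/-!
MODULE PCost (120 lines). Costs of the joins of structures.

Write `u₁ e = us L₁ e`, `u₂ e = us L₂ e`, `L' = (b₁,b₂,Q₁ ∪ Q₂) :: (L₁ ++ L₂)`, so `us L' e = [e ∈ Q₁ ∪ Q₂] + (u₁ e + u₂ e)` (`us_cons`, `us_append`).
`yy c r L Q = ∑ e ∈ Q, c e * r ^ us L e = ∑ e, if e ∈ Q then c e * r ^ us L e else 0` (`Finset.sum_ite_mem`, `univ_inter`), `≥ 0`.
All inequalities hold for every edge (`c e ≥ 0`):
* `al_pair`: `hh ([e ∈ Q₁∪Q₂] + u₁ + u₂) ≤ hh (u₁ + [e ∈ Q₁]) + hh (u₂ + [e ∈ Q₂])` (`hh_mono`, `hh_add`), and `hh (u + [e ∈ Q]) = hh u + [e ∈ Q] r ^ u`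
  (`hh_succ`).
* `al_hub`: `hh (us L' e) + [e ∈ Q₁] r ^ us L' e = hh (us L' e + [e ∈ Q₁]) ≤ hh (u₁ + 2 [e ∈ Q₁]) + hh (u₂ + [e ∈ Q₂])` and
  `hh (u₁ + 2) = hh u₁ + r ^ u₁ + r * r ^ u₁`. (Case split on `e ∈ Q₁`, `e ∈ Q₂`.)
* `yy_insert`: `yy c r L (insert a Q) ≤ yy c r L Q + c a`: if `a ∉ Q` the new term is `c a * r ^ us L a ≤ c a`.
-/

namespace BcrP

open Finset

variable {ι V : Type} [Fintype V] [DecidableEq V] {c : Sym2 V → ℝ} {r : ℝ}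

omit [Fintype V] in
private theorem PCost_hh (n : ℕ) (Q : Finset (Sym2 V)) (e : Sym2 V) :
    hh r (n + if e ∈ Q then 1 else 0) = hh r n + if e ∈ Q then r ^ n else 0 := by
  by_cases h1 : e ∈ Q
  · simp only [h1, if_true]
    exact hh_succ n
  · simp [h1]

private theorem PCost_sum (n : Sym2 V → ℕ) (Q : Finset (Sym2 V)) :
    (∑ e ∈ Q, c e * r ^ n e) = ∑ e, if e ∈ Q then c e * r ^ n e else 0 := by
  rw [Finset.sum_ite_mem, Finset.univ_inter]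

private theorem PCost_alyy (n : Sym2 V → ℕ) (Q : Finset (Sym2 V)) :
    AL c r n + ∑ e ∈ Q, c e * r ^ n e =
      ∑ e, c e * hh r (n e + if e ∈ Q then 1 else 0) := by
  rw [PCost_sum]
  unfold AL
  rw [← Finset.sum_add_distrib]
  apply Finset.sum_congr rfl
  intro e _
  rw [PCost_hh]
  by_cases h1 : e ∈ Q
  · simp only [h1, if_true]
    ring
  · simp [h1]

theorem al_nil : AL c r (us ([] : List (Lk ι V))) = 0 := by
  unfold AL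
  apply Finset.sum_eq_zero
  intro e _
  rw [us_nil, hh_zero, mul_zero]

theorem al_nonneg (hc : ∀ e, 0 ≤ c e) (hr : 0 ≤ r) (n : Sym2 V → ℕ) : 0 ≤ AL c r n := by
  unfold AL
  exact Finset.sum_nonneg fun e _ => mul_nonneg (hc e) (hh_nonneg hr _)

omit [Fintype V] in
theorem yy_nonneg (hc : ∀ e, 0 ≤ c e) (hr : 0 ≤ r) (L : List (Lk ι V)) (Q : Finset (Sym2 V)) :
    0 ≤ ∑ e ∈ Q, c e * r ^ us L e := by
  exact Finset.sum_nonneg fun e _ => mul_nonneg (hc e) (pow_nonneg hr _)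

omit [Fintype V] in
theorem yy_insert (hc : ∀ e, 0 ≤ c e) (hr0 : 0 ≤ r) (hr1 : r ≤ 1) (L : List (Lk ι V))
    (Q : Finset (Sym2 V)) (a : Sym2 V) :
    ∑ e ∈ insert a Q, c e * r ^ us L e ≤ (∑ e ∈ Q, c e * r ^ us L e) + c a := by
  by_cases ha : a ∈ Q
  · rw [Finset.insert_eq_of_mem ha]
    have := hc a
    linarith
  · rw [Finset.sum_insert ha, add_comm]
    have h1 : c a * r ^ us L a ≤ c a * 1 :=
      mul_le_mul_of_nonneg_left (pow_le_one₀ hr0 hr1) (hc a)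
    linarith

theorem al_pair (hc : ∀ e, 0 ≤ c e) (hr0 : 0 ≤ r) (hr1 : r ≤ 1) (L₁ L₂ : List (Lk ι V))
    (Q₁ Q₂ : Finset (Sym2 V)) (b₁ b₂ : ι) :
    AL c r (us ((b₁, b₂, Q₁ ∪ Q₂) :: (L₁ ++ L₂))) ≤
      (AL c r (us L₁) + ∑ e ∈ Q₁, c e * r ^ us L₁ e) +
      (AL c r (us L₂) + ∑ e ∈ Q₂, c e * r ^ us L₂ e) := by
  rw [PCost_alyy, PCost_alyy]
  unfold AL
  rw [← Finset.sum_add_distrib]
  apply Finset.sum_le_sum
  intro e _
  rw [← mul_add]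
  refine mul_le_mul_of_nonneg_left ?_ (hc e)
  refine le_trans (hh_mono hr0 ?_) (hh_add hr0 hr1 _ _)
  rw [us_cons, us_append]
  by_cases h1 : e ∈ Q₁ <;> by_cases h2 : e ∈ Q₂ <;> simp [h1, h2] <;> omega

theorem al_hub (hc : ∀ e, 0 ≤ c e) (hr0 : 0 ≤ r) (hr1 : r ≤ 1) (L₁ L₂ : List (Lk ι V))
    (Q₁ Q₂ : Finset (Sym2 V)) (b₁ b₂ : ι) :
    AL c r (us ((b₁, b₂, Q₁ ∪ Q₂) :: (L₁ ++ L₂))) +
        ∑ e ∈ Q₁, c e * r ^ us ((b₁, b₂, Q₁ ∪ Q₂) :: (L₁ ++ L₂)) e ≤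
      (AL c r (us L₁) + ∑ e ∈ Q₁, c e * r ^ us L₁ e) +
      (AL c r (us L₂) + ∑ e ∈ Q₂, c e * r ^ us L₂ e) +
      r * ∑ e ∈ Q₁, c e * r ^ us L₁ e := by
  rw [PCost_alyy, PCost_alyy, PCost_alyy, PCost_sum, Finset.mul_sum, ← Finset.sum_add_distrib,
    ← Finset.sum_add_distrib]
  apply Finset.sum_le_sum
  intro e _
  have key : hh r (us ((b₁, b₂, Q₁ ∪ Q₂) :: (L₁ ++ L₂)) e + if e ∈ Q₁ then 1 else 0) ≤
      hh r ((us L₁ e + if e ∈ Q₁ then 1 else 0) + if e ∈ Q₁ then 1 else 0) +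
        hh r (us L₂ e + if e ∈ Q₂ then 1 else 0) := by
    refine le_trans (hh_mono hr0 ?_) (hh_add hr0 hr1 _ _)
    rw [us_cons, us_append]
    by_cases h1 : e ∈ Q₁ <;> by_cases h2 : e ∈ Q₂ <;> simp [h1, h2] <;> omega
  have h2 : hh r ((us L₁ e + if e ∈ Q₁ then 1 else 0) + if e ∈ Q₁ then 1 else 0) =
      hh r (us L₁ e + if e ∈ Q₁ then 1 else 0) + r * (if e ∈ Q₁ then r ^ us L₁ e else 0) := by
    by_cases h1 : e ∈ Q₁
    · simp only [h1, if_true]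
      rw [hh_succ (us L₁ e + 1), pow_succ]
      ring
    · simp [h1]
  have h3 := mul_le_mul_of_nonneg_left key (hc e)
  rw [h2] at h3
  have h4 : c e * (hh r (us L₁ e + if e ∈ Q₁ then 1 else 0) +
        r * (if e ∈ Q₁ then r ^ us L₁ e else 0) +
        hh r (us L₂ e + if e ∈ Q₂ then 1 else 0)) =
      c e * hh r (us L₁ e + if e ∈ Q₁ then 1 else 0) +
        c e * hh r (us L₂ e + if e ∈ Q₂ then 1 else 0) +
        r * (if e ∈ Q₁ then c e * r ^ us L₁ e else 0) := by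
    by_cases h1 : e ∈ Q₁
    · simp only [h1, if_true]
      ring
    · simp only [h1, if_false]
      ring
  rw [h4] at h3
  exact h3

end BcrP
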