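import Pool.Agent.Lib.BcrU.Defs
import Pool.Agent.Lib.BcrU.DefsG
import Pool.Agent.Lib.BcrR.RDef

/-!
The witness tree reduction for the bidirected cut relaxation: definitions.
-/

namespace BcrP

open Finset BcrU BcrR Bcr3

/-- a link: two terminals and a set of edges -/
abbrev Lk (ι V : Type) : Type := ι × ι × Finset (Sym2 V)

variable {ι V : Type}

/-- the pairs of the links of a finite set -/
def rel (X : Finset (Lk ι V)) : ι → ι → Prop := fun a b => ∃ f ∈ X, f.1 = a ∧ f.2.1 = b

/-- the pairs of the links of a list -/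
def rl (L : List (Lk ι V)) : ι → ι → Prop := fun a b => ∃ f ∈ L, f.1 = a ∧ f.2.1 = b

/-- number of links of `X` which use the edge `e` -/
def uX [DecidableEq V] (X : Finset (Lk ι V)) (e : Sym2 V) : ℕ :=
  (X.filter fun f => e ∈ f.2.2).card

/-- number of links of the list `L` which use the edge `e` -/
def us [DecidableEq V] (L : List (Lk ι V)) (e : Sym2 V) : ℕ :=
  (L.filter fun f => decide (e ∈ f.2.2)).length

/-- `1 + r + ... + r ^ (n - 1)` -/
noncomputable def hh (r : ℝ) (n : ℕ) : ℝ := ∑ i ∈ range n, r ^ i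

/-- expected cost if every link is bought with probability `1 - r` -/
noncomputable def Ph [Fintype V] [DecidableEq V] (c : Sym2 V → ℝ) (r : ℝ) (n : Sym2 V → ℕ) : ℝ :=
  ∑ e, c e * (1 - r ^ n e)

/-- derivative of the expected cost -/
noncomputable def Md [Fintype V] [DecidableEq V] (c : Sym2 V → ℝ) (r : ℝ) (n : Sym2 V → ℕ) : ℝ :=
  ∑ e, c e * ((n e : ℝ) * r ^ (n e - 1))

/-- the price of a set of new links -/
noncomputable def AL [Fintype V] [DecidableEq V] (c : Sym2 V → ℝ) (r : ℝ) (n : Sym2 V → ℕ) : ℝ :=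
  ∑ e, c e * hh r (n e)

/-- the weight of the link `f` in the state `X` -/
noncomputable def wt [DecidableEq V] (c : Sym2 V → ℝ) (r : ℝ) (X : Finset (Lk ι V))
    (f : Lk ι V) : ℝ := ∑ e ∈ f.2.2, c e * r ^ (uX X e - 1)

/-- states: spanning trees of links -/
structure St [Fintype ι] (G : SimpleGraph V) (t : ι → V) (X : Finset (Lk ι V)) : Prop where
  card : X.card + 1 ≤ Fintype.card ι
  path : ∀ f ∈ X, conn G f.2.2 (t f.1) (t f.2.1)
  con : ∀ i j, Relation.EqvGen (rel X) i j

/-- structures: trees of links on the set `S` -/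
structure Sr (G : SimpleGraph V) (t : ι → V) (S : Finset ι) (L : List (Lk ι V)) : Prop where
  ne : S.Nonempty
  len : L.length + 1 = S.card
  path : ∀ f ∈ L, conn G f.2.2 (t f.1) (t f.2.1)
  con : ∀ i ∈ S, ∀ j ∈ S, Relation.EqvGen (rl L) i j

open Classical in
/-- number of classes of `EqvGen r` which meet `S` -/
noncomputable def nclS [Fintype ι] (r : ι → ι → Prop) (S : Finset ι) : ℕ :=
  (S.image fun i => univ.filter fun j => Relation.EqvGen r i j).card

open Classical in
/-- the links of level at most `k` -/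
noncomputable def lo (X : Finset (Lk ι V)) (κ : Lk ι V → ℕ) (k : ℕ) : Finset (Lk ι V) :=
  X.filter fun f => κ f ≤ k

/-- single linkage levels of the links of `X` with the levels `κ` -/
noncomputable def levX (X : Finset (Lk ι V)) (κ : Lk ι V → ℕ) (i j : ι) : ℕ :=
  sInf {k : ℕ | Relation.EqvGen (rel (lo X κ k)) i j}

/-- the laminar information of the stable levels `lev` -/
noncomputable def eP [Fintype V] [DecidableEq V] [Fintype ι] [DecidableEq ι] (G : SimpleGraph V)
    (c : Sym2 V → ℝ) (t : ι → V) (r : ℝ) (lev : ι → ι → ℕ) (K : ℕ) (ε : ℝ) (v : V)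
    (B : Finset ι) : ℝ :=
  sInf {x | ∃ (S : Finset ι) (L : List (Lk ι V)) (b : ι) (Q : Finset (Sym2 V)), S ⊆ B ∧
    Sr G t S L ∧ b ∈ S ∧ conn G Q (t b) v ∧
    x = AL c r (us L) + (∑ e ∈ Q, c e * r ^ us L e) - mu lev K ε S}

end BcrP
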