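import Pool.Agent.Lib.BcrP.PDefs
import Pool.Agent.Lib.BcrR.RRank

/-!
MODULE PGreedy (110 lines). Kruskal's algorithm: links of `X` which complete the relation `π`.

Induction `Finset.induction_on_max_value κ` (add the link `f` of the largest level last; `classical` for the decidable equality).
* `X = ∅`: `A = ∅`; `rel ∅ = ⊥`, `π ⊔ ⊥ = π`, `lo ∅ κ k = ∅`, the sum is `K * ncl π`.
* `X = insert f X'`, `κ g ≤ κ f` for `g ∈ X'`, `A'` from the induction. `π ⊔ rel (insert f X') = (π ⊔ rel X') ⊔ p` with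
  `p = fun x y => x = f.1 ∧ y = f.2.1` (extensionality), and `ncl_pair` applies.
  `k < κ f`: `lo X κ k = lo X' κ k`. `κ f ≤ k`: `lo X κ k = X` and `lo X' κ k = X'`.
  Case 1, `EqvGen (π ⊔ rel X') f.1 f.2.1`: `ncl (π ⊔ rel X) = ncl (π ⊔ rel X')`; take `A = A'`; the sums agree term by term.
  Case 2, not: `ncl (π ⊔ rel X) + 1 = ncl (π ⊔ rel X')`. Take `A = insert f A'` (`f ∉ A'` since `A' ⊆ X'`). Not
  `EqvGen (π ⊔ rel A') f.1 f.2.1` (`Relation.EqvGen.mono`), so `ncl (π ⊔ rel A) + 1 = ncl (π ⊔ rel A')`. The sum over `k < K` is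
  `∑_{k<κ f} ncl (π ⊔ rel (lo X' κ k)) + (K - κ f) (n' - 1)` with `n' = ncl (π ⊔ rel X')`, i.e. the old sum minus `(K - κ f)`, and
  `∑_A κ + K (n' - 1) = ∑_{A'} κ + κ f + K n' - K`. (`κ f ≤ K`; natural numbers, use `omega`/`zify`.)
-/

namespace BcrP

open Finset BcrR

variable {ι V : Type} [Fintype ι]

omit [Fintype ι] in
private theorem pGreedy_ins [DecidableEq (Lk ι V)] (π : ι → ι → Prop) (S : Finset (Lk ι V))
    (f : Lk ι V) :
    π ⊔ rel (insert f S) = (π ⊔ rel S) ⊔ fun x y => x = f.1 ∧ y = f.2.1 := by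
  funext x y
  apply propext
  show (π x y ∨ ∃ g ∈ insert f S, g.1 = x ∧ g.2.1 = y) ↔
    ((π x y ∨ ∃ g ∈ S, g.1 = x ∧ g.2.1 = y) ∨ (x = f.1 ∧ y = f.2.1))
  constructor
  · rintro (h | ⟨g, hg, h1, h2⟩)
    · exact Or.inl (Or.inl h)
    · rcases Finset.mem_insert.1 hg with rfl | hg
      · exact Or.inr ⟨h1.symm, h2.symm⟩
      · exact Or.inl (Or.inr ⟨g, hg, h1, h2⟩)
  · rintro ((h | ⟨g, hg, h1, h2⟩) | ⟨h1, h2⟩)
    · exact Or.inl h
    · exact Or.inr ⟨g, Finset.mem_insert_of_mem hg, h1, h2⟩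
    · exact Or.inr ⟨f, Finset.mem_insert_self _ _, h1.symm, h2.symm⟩

omit [Fintype ι] in
private theorem pGreedy_empty (π : ι → ι → Prop) : π ⊔ rel (∅ : Finset (Lk ι V)) = π := by
  funext x y
  apply propext
  show (π x y ∨ ∃ g ∈ (∅ : Finset (Lk ι V)), g.1 = x ∧ g.2.1 = y) ↔ π x y
  simp

omit [Fintype ι] in
private theorem pGreedy_mono (π : ι → ι → Prop) {A S : Finset (Lk ι V)} (h : A ⊆ S) {x y : ι}
    (hxy : Relation.EqvGen (π ⊔ rel A) x y) : Relation.EqvGen (π ⊔ rel S) x y := by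
  refine Relation.EqvGen.mono (r := π ⊔ rel A) (p := π ⊔ rel S) ?_ x y hxy
  intro a b hab
  rcases hab with hab | ⟨g, hg, h1⟩
  · exact Or.inl hab
  · exact Or.inr ⟨g, h hg, h1⟩

omit [Fintype ι] in
private theorem pGreedy_lo_lt [DecidableEq (Lk ι V)] (κ : Lk ι V → ℕ) (S : Finset (Lk ι V))
    (f : Lk ι V) {k : ℕ} (hk : k < κ f) : lo (insert f S) κ k = lo S κ k := by
  ext g
  simp only [lo, Finset.mem_filter, Finset.mem_insert]
  constructor
  · rintro ⟨rfl | hg, h⟩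
    · omega
    · exact ⟨hg, h⟩
  · rintro ⟨hg, h⟩
    exact ⟨Or.inr hg, h⟩

omit [Fintype ι] in
private theorem pGreedy_lo_ge (κ : Lk ι V → ℕ) (S : Finset (Lk ι V)) {k : ℕ}
    (hk : ∀ g ∈ S, κ g ≤ k) : lo S κ k = S := by
  ext g
  simp only [lo, Finset.mem_filter]
  exact ⟨fun h => h.1, fun h => ⟨h, hk g h⟩⟩

private theorem pGreedy_card (a K : ℕ) :
    ∑ k ∈ range K, (if a ≤ k then 1 else 0 : ℕ) = K - a := by
  rw [← Finset.card_filter]
  have : (range K).filter (fun k => a ≤ k) = Finset.Ico a K := by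
    ext k
    simp only [Finset.mem_filter, Finset.mem_range, Finset.mem_Ico]
    omega
  rw [this, Nat.card_Ico]

theorem greedy (π : ι → ι → Prop) (X : Finset (Lk ι V)) (κ : Lk ι V → ℕ) {K : ℕ}
    (hK : ∀ f ∈ X, κ f ≤ K) :
    ∃ A ⊆ X, ncl (π ⊔ rel A) = ncl (π ⊔ rel X) ∧ A.card + ncl (π ⊔ rel X) = ncl π ∧
      (∑ f ∈ A, κ f) + K * ncl (π ⊔ rel X) = ∑ k ∈ range K, ncl (π ⊔ rel (lo X κ k)) := by
  classical
  revert hK
  refine Finset.induction_on_max_value κ X ?_ ?_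
  · intro _
    refine ⟨∅, Finset.Subset.rfl, rfl, ?_, ?_⟩
    · rw [pGreedy_empty]
      simp
    · have h : ∀ k ∈ range K, ncl (π ⊔ rel (lo (∅ : Finset (Lk ι V)) κ k)) = ncl π := by
        intro k _
        have : lo (∅ : Finset (Lk ι V)) κ k = ∅ := by
          ext g
          simp [lo]
        rw [this, pGreedy_empty]
      rw [Finset.sum_congr rfl h, pGreedy_empty]
      simp
  · intro f S hf hmax ih hK
    obtain ⟨A, hAS, h1, h2, h3⟩ := ih fun g hg => hK g (Finset.mem_insert_of_mem hg)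
    have hfK : κ f ≤ K := hK f (Finset.mem_insert_self _ _)
    have hfA : f ∉ A := fun h => hf (hAS h)
    have hge : ∀ k, κ f ≤ k → lo (insert f S) κ k = insert f S ∧ lo S κ k = S := by
      intro k hk
      refine ⟨pGreedy_lo_ge κ _ ?_, pGreedy_lo_ge κ _ fun g hg => (hmax g hg).trans hk⟩
      intro g hg
      rcases Finset.mem_insert.1 hg with rfl | hg
      · exact hk
      · exact (hmax g hg).trans hk
    have hp := ncl_pair (π ⊔ rel S) f.1 f.2.1
    rw [← pGreedy_ins] at hp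
    by_cases hE : Relation.EqvGen (π ⊔ rel S) f.1 f.2.1
    · have hn := hp.1 hE
      refine ⟨A, hAS.trans (Finset.subset_insert _ _), by rw [h1, hn], by rw [hn, h2], ?_⟩
      rw [hn, h3]
      refine Finset.sum_congr rfl fun k _ => ?_
      rcases lt_or_ge k (κ f) with hk | hk
      · rw [pGreedy_lo_lt κ S f hk]
      · rw [(hge k hk).1, (hge k hk).2, hn]
    · have hn := hp.2 hE
      have hEA : ¬ Relation.EqvGen (π ⊔ rel A) f.1 f.2.1 := fun h => hE (pGreedy_mono π hAS h)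
      have hpA := (ncl_pair (π ⊔ rel A) f.1 f.2.1).2 hEA
      rw [← pGreedy_ins] at hpA
      have hsum : ∑ k ∈ range K, ncl (π ⊔ rel (lo S κ k)) =
          ∑ k ∈ range K, ncl (π ⊔ rel (lo (insert f S) κ k)) + (K - κ f) := by
        rw [← pGreedy_card (κ f) K, ← Finset.sum_add_distrib]
        refine Finset.sum_congr rfl fun k _ => ?_
        rcases lt_or_ge k (κ f) with hk | hk
        · rw [pGreedy_lo_lt κ S f hk, if_neg (by omega), Nat.add_zero]
        · rw [(hge k hk).1, (hge k hk).2, if_pos hk, hn]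
      refine ⟨insert f A, Finset.insert_subset_insert _ hAS, by omega, ?_, ?_⟩
      · rw [Finset.card_insert_of_notMem hfA]
        omega
      · rw [Finset.sum_insert hfA]
        have h4 : K * ncl (π ⊔ rel S) = K * ncl (π ⊔ rel (insert f S)) + K := by
          rw [← hn]
          ring
        omega

end BcrP
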