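import Pool.Agent.Lib.BcrP.PDefs
import Pool.Agent.Lib.BcrU.LUlt

/-!
MODULE PLev (110 lines). The levels `levX` of a connected set of links.

* `lo_mono`: `lo X κ k ⊆ lo X κ k'` for `k ≤ k'`. `rel_mono`: `A ⊆ B` gives `rel A a b → rel B a b`. `lo X κ K = X` by `hK`.
* `levX_le_iff`: the set `{k | EqvGen (rel (lo X κ k)) i j}` is upward closed (`Relation.EqvGen.mono`) and contains `K` (`hcon`), so
  `Nat.sInf_mem`, `Nat.sInf_le`.
* `levX_ult`: `EqvGen` is an equivalence relation (`refl`, `symm`, `trans`), `bound` by `K`.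
* `kap_levX`: `cl (levX X κ) k i = univ.filter fun j => EqvGen (rel (lo X κ k)) i j` (ext, `levX_le_iff`; the decidability instances are
  removed by `ext; simp`), then the images agree (`Finset.image` with different instances of `DecidableEq`: `convert`/`congr`,
  or compare through `Finset.card_bij`, or `by ext; simp`).
-/

namespace BcrP

open Finset BcrU

variable {ι V : Type} {X : Finset (Lk ι V)} {κ : Lk ι V → ℕ} {K : ℕ}

theorem rel_mono {A B : Finset (Lk ι V)} (h : A ⊆ B) (a b : ι) (hab : rel A a b) :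
    rel B a b := by
  obtain ⟨f, hf, h1, h2⟩ := hab
  exact ⟨f, h hf, h1, h2⟩

theorem PLev_lo_mono {k k' : ℕ} (h : k ≤ k') : lo X κ k ⊆ lo X κ k' := by
  intro f hf
  simp only [lo, mem_filter] at hf ⊢
  exact ⟨hf.1, hf.2.trans h⟩

theorem lo_top (hK : ∀ f ∈ X, κ f ≤ K) : lo X κ K = X := by
  unfold lo
  exact filter_true_of_mem hK

theorem PLev_mono {k k' : ℕ} (h : k ≤ k') {i j : ι}
    (hij : Relation.EqvGen (rel (lo X κ k)) i j) : Relation.EqvGen (rel (lo X κ k')) i j :=
  Relation.EqvGen.mono (rel_mono (PLev_lo_mono h)) i j hij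

theorem levX_le_iff (hK : ∀ f ∈ X, κ f ≤ K) (hcon : ∀ i j, Relation.EqvGen (rel X) i j)
    {i j : ι} {k : ℕ} : levX X κ i j ≤ k ↔ Relation.EqvGen (rel (lo X κ k)) i j := by
  constructor
  · intro h
    have hne : {k : ℕ | Relation.EqvGen (rel (lo X κ k)) i j}.Nonempty := by
      refine ⟨K, ?_⟩
      change Relation.EqvGen (rel (lo X κ K)) i j
      rw [lo_top hK]
      exact hcon i j
    exact PLev_mono h (Nat.sInf_mem hne)
  · intro h
    exact Nat.sInf_le h

theorem levX_ult (hK : ∀ f ∈ X, κ f ≤ K) (hcon : ∀ i j, Relation.EqvGen (rel X) i j) :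
    Ult K (levX X κ) where
  refl i := Nat.le_zero.1 ((levX_le_iff hK hcon).2 (Relation.EqvGen.refl i))
  symm i j := le_antisymm
    ((levX_le_iff hK hcon).2 (((levX_le_iff hK hcon).1 le_rfl).symm))
    ((levX_le_iff hK hcon).2 (((levX_le_iff hK hcon).1 le_rfl).symm))
  ultra i j l := (levX_le_iff hK hcon).2
    (Relation.EqvGen.trans _ j _
      (PLev_mono (le_max_left _ _) ((levX_le_iff hK hcon).1 le_rfl))
      (PLev_mono (le_max_right _ _) ((levX_le_iff hK hcon).1 le_rfl)))
  bound i j := (levX_le_iff hK hcon).2 (by rw [lo_top hK]; exact hcon i j)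

theorem kap_levX [Fintype ι] [DecidableEq ι] (hK : ∀ f ∈ X, κ f ≤ K)
    (hcon : ∀ i j, Relation.EqvGen (rel X) i j) (k : ℕ) (S : Finset ι) :
    kap (levX X κ) k S = nclS (rel (lo X κ k)) S := by
  unfold kap nclS
  congr 1
  ext B
  simp only [mem_image]
  constructor
  · rintro ⟨i, hi, rfl⟩
    refine ⟨i, hi, ?_⟩
    ext j
    simp [cl, levX_le_iff hK hcon]
  · rintro ⟨i, hi, rfl⟩
    refine ⟨i, hi, ?_⟩
    ext j
    simp [cl, levX_le_iff hK hcon]

end BcrP
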