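import Pool.Agent.Lib.BcrP.PClass
import Pool.Agent.Lib.BcrP.PGreedy
import Pool.Agent.Lib.BcrP.PLev

/-!
MODULE PDrop (130 lines). The minimum spanning tree cost of the levels of a tree of links, and the dropped links.

`lev = levX X κ`, `X_k = lo X κ k`. By `kap_levX`, `nclS_univ`: `kap lev k univ = ncl (rel X_k)`, `kap lev k S = nclS (rel X_k) S`.
`ncl (rel X) = 1` (`ncl_of_con`), also `ncl (rl L ⊔ rel X) = 1` (`Relation.EqvGen.mono`).
* `mu_levX`: `greedy` with `π = ⊥` (`⊥ ⊔ rel A = rel A`: `bot_sup_eq`): `A ⊆ X` with `A.card + 1 = ncl ⊥ = card ι` (`ncl_bot`), so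
  `X.card ≤ A.card`, `A = X` (`Finset.eq_of_subset_of_card_le`); `∑_X κ + K = ∑_{k<K} ncl (rel X_k)`, i.e.
  `∑_{k<K} (kap lev k univ - 1) = ∑_X κ`.
* `drop`: `greedy` with `π = rl L`: `A ⊆ X`, `ncl (rl L ⊔ rel A) = 1` (so everything is connected: `con_of_ncl`), `A.card + 1 = ncl (rl L)`,
  `∑_A κ + K = ∑_{k<K} ncl (rl L ⊔ rel X_k)`.
  Card: `ncl_meet` with `r = ⊥`, `r' = rl L`: `ncl (rl L) + S.card ≤ card ι + 1` (`ncl_bot`, `nclS_bot`), so
  `A.card + 1 + (L.length + 1) ≤ card ι + 1`.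
  Sum: `ncl_meet` with `r = rel X_k`, `r' = rl L ⊔ rel X_k` (`hL` and `EqvGen.mono`): `ncl (rl L ⊔ rel X_k) + kap lev k S ≤ kap lev k univ + 1`.
  Sum over `k < K`: `∑_A κ + K + ∑_k kap lev k S ≤ ∑_k kap lev k univ + K = ∑_X κ + K + K`, so
  `∑_A κ + ∑_k (kap lev k S - 1) ≤ ∑_X κ`; multiply by `ε ≥ 0`.
-/

namespace BcrP

open Finset BcrU BcrR

variable {ι V : Type} [Fintype ι] [DecidableEq ι] [Nonempty ι] {X : Finset (Lk ι V)}
  {κ : Lk ι V → ℕ} {K : ℕ}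

omit [Nonempty ι] in
private theorem pDrop_sum (hK : ∀ f ∈ X, κ f ≤ K) (hcon : ∀ i j, Relation.EqvGen (rel X) i j)
    (S : Finset ι) (ε : ℝ) :
    mu (levX X κ) K ε S = ε * ((∑ k ∈ range K, nclS (rel (lo X κ k)) S : ℕ) - (K : ℝ)) := by
  unfold mu
  have h : ∀ k ∈ range K, ((kap (levX X κ) k S : ℝ) - 1) =
      (nclS (rel (lo X κ k)) S : ℝ) - 1 := by
    intro k _
    rw [kap_levX hK hcon k S]
  rw [Finset.sum_congr rfl h, Finset.sum_sub_distrib]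
  simp

omit [DecidableEq ι] in
private theorem pDrop_all (hK : ∀ f ∈ X, κ f ≤ K) (hcon : ∀ i j, Relation.EqvGen (rel X) i j)
    (hcard : X.card + 1 ≤ Fintype.card ι) :
    (∑ f ∈ X, κ f) + K = ∑ k ∈ range K, ncl (rel (lo X κ k)) := by
  obtain ⟨A, hAX, -, h2, h3⟩ := greedy (⊥ : ι → ι → Prop) X κ hK
  simp only [bot_sup_eq] at h2 h3
  rw [ncl_of_con hcon] at h2 h3
  rw [ncl_bot] at h2
  have hA : A = X := Finset.eq_of_subset_of_card_le hAX (by omega)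
  subst hA
  rw [← h3, mul_one]

theorem mu_levX (hK : ∀ f ∈ X, κ f ≤ K) (hcon : ∀ i j, Relation.EqvGen (rel X) i j)
    (hcard : X.card + 1 ≤ Fintype.card ι) (ε : ℝ) :
    mu (levX X κ) K ε univ = ε * ∑ f ∈ X, (κ f : ℝ) := by
  rw [pDrop_sum hK hcon]
  have h : ∑ k ∈ range K, nclS (rel (lo X κ k)) (univ : Finset ι) = (∑ f ∈ X, κ f) + K := by
    rw [pDrop_all hK hcon hcard]
    exact Finset.sum_congr rfl fun k _ => nclS_univ _
  rw [h]
  push_cast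
  ring

theorem drop (hK : ∀ f ∈ X, κ f ≤ K) (hcon : ∀ i j, Relation.EqvGen (rel X) i j)
    (hcard : X.card + 1 ≤ Fintype.card ι) {ε : ℝ} (hε : 0 ≤ ε) {S : Finset ι}
    (hS : S.Nonempty) {L : List (Lk ι V)} (hlen : L.length + 1 = S.card)
    (hL : ∀ i ∈ S, ∀ j ∈ S, Relation.EqvGen (rl L) i j) :
    ∃ A ⊆ X, (∀ i j, Relation.EqvGen (rl L ⊔ rel A) i j) ∧
      A.card + L.length + 1 ≤ Fintype.card ι ∧
      mu (levX X κ) K ε S + ε * ∑ f ∈ A, (κ f : ℝ) ≤ ε * ∑ f ∈ X, (κ f : ℝ) := by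
  obtain ⟨A, hAX, h1, h2, h3⟩ := greedy (rl L) X κ hK
  have hX : ncl (rl L ⊔ rel X) = 1 := by
    apply ncl_of_con
    intro i j
    exact Relation.EqvGen.mono (r := rel X) (p := rl L ⊔ rel X) (fun a b h => Or.inr h) i j
      (hcon i j)
  rw [hX] at h1 h2 h3
  refine ⟨A, hAX, fun i j => con_of_ncl h1.le i j, ?_, ?_⟩
  · have h4 := ncl_meet (r := (⊥ : ι → ι → Prop)) (r' := rl L) (fun a b h => h.elim) hS hL
    rw [ncl_bot, nclS_bot] at h4
    omega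
  · have h5 : ∀ k ∈ range K, ncl (rl L ⊔ rel (lo X κ k)) + nclS (rel (lo X κ k)) S ≤
        ncl (rel (lo X κ k)) + 1 := by
      intro k _
      apply ncl_meet _ hS
      · intro a ha b hb
        exact Relation.EqvGen.mono (r := rl L) (p := rl L ⊔ rel (lo X κ k))
          (fun a b h => Or.inl h) a b (hL a ha b hb)
      · intro a b hab
        exact Relation.EqvGen.rel _ _ (Or.inr hab)
    have h6 := Finset.sum_le_sum h5
    rw [Finset.sum_add_distrib, Finset.sum_add_distrib, ← h3, ← pDrop_all hK hcon hcard] at h6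
    simp only [Finset.sum_const, Finset.card_range, smul_eq_mul, mul_one] at h6
    rw [pDrop_sum hK hcon, ← mul_add]
    apply mul_le_mul_of_nonneg_left _ hε
    have h7 : (∑ f ∈ A, κ f) + ∑ k ∈ range K, nclS (rel (lo X κ k)) S ≤
        (∑ f ∈ X, κ f) + K := by omega
    have h8 : (((∑ f ∈ A, κ f) + ∑ k ∈ range K, nclS (rel (lo X κ k)) S : ℕ) : ℝ) ≤
        (((∑ f ∈ X, κ f) + K : ℕ) : ℝ) := Nat.cast_le.2 h7
    push_cast at h8 ⊢
    linarith

end BcrP
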