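import Pool.Agent.Lib.BcrP.PNum

/-!
MODULE PUse (120 lines). Counting the usage of edges.

* `us_nil`, `us_cons`, `us_append`: `List.filter_cons`, `List.filter_append`, `List.length_append`.
* `uX_toFinset`: `uX L.toFinset e ≤ us L e`: `L.toFinset.filter p = (L.filter p).toFinset` (`List.toFinset_filter`), `List.toFinset_card_le`.
* `uX_union`: `Finset.filter_union`, `Finset.card_union_le`.
* `uX_sdiff`: `A ⊆ X`: `X.filter = A.filter ∪ (X \ A).filter`, disjoint (`Finset.card_union_of_disjoint`, or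
  `Finset.card_sdiff_add_card_eq_card` after `filter`; `Finset.filter_card_add_filter_neg_card_eq_card`).
* `sum_wt`: `∑_{f ∈ D} ∑_{e ∈ f.2.2} g e = ∑_e (number of f ∈ D with e ∈ f.2.2) * g e` with `g e = c e * r ^ (uX X e - 1)`: write the inner sum as
  `∑ e, if e ∈ f.2.2 then g e else 0` (`Finset.sum_ite_mem`, `univ_inter`), `Finset.sum_comm`, `Finset.sum_ite`, `Finset.sum_const`.
* `wt_nonneg`. `ph_mono`: `r ^ n' ≤ r ^ n` for `n ≤ n'` (`pow_le_pow_of_le_one`).
-/

namespace BcrP

open Finset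

variable {ι V : Type} [DecidableEq ι] [DecidableEq V]

omit [DecidableEq ι] in
theorem us_nil (e : Sym2 V) : us ([] : List (Lk ι V)) e = 0 := by
  simp [us]

omit [DecidableEq ι] in
theorem us_cons (f : Lk ι V) (L : List (Lk ι V)) (e : Sym2 V) :
    us (f :: L) e = (if e ∈ f.2.2 then 1 else 0) + us L e := by
  unfold us
  by_cases h : e ∈ f.2.2
  · rw [List.filter_cons_of_pos (by simpa using h), List.length_cons, if_pos h, add_comm]
  · rw [List.filter_cons_of_neg (by simpa using h), if_neg h, zero_add]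

omit [DecidableEq ι] in
theorem us_append (L L' : List (Lk ι V)) (e : Sym2 V) :
    us (L ++ L') e = us L e + us L' e := by
  unfold us
  rw [List.filter_append, List.length_append]

theorem uX_union_list (A : Finset (Lk ι V)) (L : List (Lk ι V)) (e : Sym2 V) :
    uX (A ∪ L.toFinset) e ≤ uX A e + us L e := by
  have h1 : uX L.toFinset e ≤ us L e := by
    unfold uX us
    have h2 : (L.toFinset.filter fun f => e ∈ f.2.2)
        = (L.filter fun f => decide (e ∈ f.2.2)).toFinset := by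
      ext f
      simp [List.mem_filter]
    rw [h2]
    exact List.toFinset_card_le _
  have h3 : uX (A ∪ L.toFinset) e ≤ uX A e + uX L.toFinset e := by
    unfold uX
    rw [Finset.filter_union]
    exact Finset.card_union_le _ _
  omega

theorem uX_sdiff {A X : Finset (Lk ι V)} (h : A ⊆ X) (e : Sym2 V) :
    uX X e = uX A e + uX (X \ A) e := by
  unfold uX
  rw [← Finset.card_union_of_disjoint]
  · congr 1
    ext f
    simp only [Finset.mem_filter, Finset.mem_union, Finset.mem_sdiff]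
    constructor
    · rintro ⟨h1, h2⟩
      by_cases h3 : f ∈ A
      · exact Or.inl ⟨h3, h2⟩
      · exact Or.inr ⟨⟨h1, h3⟩, h2⟩
    · rintro (⟨h1, h2⟩ | ⟨⟨h1, _⟩, h2⟩)
      · exact ⟨h h1, h2⟩
      · exact ⟨h1, h2⟩
  · rw [Finset.disjoint_left]
    intro f hf hf'
    simp only [Finset.mem_filter, Finset.mem_sdiff] at hf hf'
    exact hf'.1.2 hf.1

variable [Fintype V] {c : Sym2 V → ℝ} {r : ℝ}

omit [DecidableEq ι] in
theorem sum_wt (X D : Finset (Lk ι V)) :
    ∑ f ∈ D, wt c r X f = ∑ e, c e * ((uX D e : ℝ) * r ^ (uX X e - 1)) := by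
  have h1 : ∀ f : Lk ι V, wt c r X f
      = ∑ e : Sym2 V, if e ∈ f.2.2 then c e * r ^ (uX X e - 1) else 0 := by
    intro f
    unfold wt
    rw [Finset.sum_ite_mem, Finset.univ_inter]
  rw [Finset.sum_congr rfl (fun f _ => h1 f), Finset.sum_comm]
  refine Finset.sum_congr rfl fun e _ => ?_
  rw [← Finset.sum_filter, Finset.sum_const, nsmul_eq_mul]
  unfold uX
  ring

omit [DecidableEq ι] [Fintype V] in
theorem wt_nonneg (hc : ∀ e, 0 ≤ c e) (hr : 0 ≤ r) (X : Finset (Lk ι V)) (f : Lk ι V) :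
    0 ≤ wt c r X f := by
  unfold wt
  exact Finset.sum_nonneg fun e _ => mul_nonneg (hc e) (pow_nonneg hr _)

omit [DecidableEq ι] in
theorem ph_mono (hc : ∀ e, 0 ≤ c e) (hr0 : 0 ≤ r) (hr1 : r ≤ 1) {n n' : Sym2 V → ℕ}
    (h : ∀ e, n e ≤ n' e) : Ph c r n ≤ Ph c r n' := by
  unfold Ph
  refine Finset.sum_le_sum fun e _ => mul_le_mul_of_nonneg_left ?_ (hc e)
  have := pow_le_pow_of_le_one hr0 hr1 (h e)
  linarith

end BcrP
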