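import Pool.Agent.Lib.BcrP.PDrop
import Pool.Agent.Lib.BcrP.PUse
import Pool.Agent.Lib.BcrP.PState

/-!
MODULE PExch (150 lines). The minimal states are stable.

`κ f = ⌊wt c r X f / ε⌋₊`, so `ε κ f ≤ wt f < ε κ f + ε` (`Nat.floor_le`, `Nat.lt_floor_add_one`, `wt_nonneg`), and `κ f ≤ K` by `hK`.
* `exch_stable`: take `A` from `drop` (for `S`, `L`), `X' = A ∪ L.toFinset` is a state (`st_union`). `D = X \ A`, `uX X e = uX A e + uX D e`
  (`uX_sdiff`). Minimality, `ph_mono` and `uX_union_list`: `Ph c r (uX X) ≤ Ph c r (fun e => uX A e + us L e)`, i.e.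
  `∑ c e (r ^ uX A e - r ^ (uX A e + uX D e)) ≤ ∑ c e (r ^ uX A e - r ^ (uX A e + us L e))`.
  Left side `≥ (1 - r) ∑_{f ∈ D} wt f` (`sum_wt`, `edge_drop` with `m = uX A e`, `d = uX D e`), right side `≤ (1 - r) AL c r (us L)` (`edge_add`).
  Since `1 - r > 0`: `∑_{f ∈ D} wt f ≤ AL c r (us L)`.
  `drop`: `mu S ≤ ε ∑_X κ - ε ∑_A κ = ε ∑_D κ ≤ ∑_D wt` (`Finset.sum_sdiff`).
* `md_le`: `Md c r (uX X) = ∑_{f ∈ X} wt f` (`sum_wt` with `D = X`) `≤ ε ∑_X κ + ε X.card ≤ mu univ + ε card ι` (`mu_levX`, `St.card`).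
-/

namespace BcrP

open Finset BcrU Bcr3

variable {ι V : Type} [Fintype ι] [DecidableEq ι] [Nonempty ι] [Fintype V] [DecidableEq V]
  {G : SimpleGraph V} {t : ι → V} {c : Sym2 V → ℝ} {r : ℝ} {X : Finset (Lk ι V)} {ε : ℝ} {K : ℕ}

omit [Fintype ι] [DecidableEq ι] [Nonempty ι] [Fintype V] in
private theorem PExch_floor (hc : ∀ e, 0 ≤ c e) (hr0 : 0 ≤ r) (hε : 0 < ε) (f : Lk ι V) :
    ε * ((⌊wt c r X f / ε⌋₊ : ℕ) : ℝ) ≤ wt c r X f := by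
  have h0 : 0 ≤ wt c r X f / ε := div_nonneg (wt_nonneg hc hr0 X f) hε.le
  have h1 := Nat.floor_le h0
  calc ε * ((⌊wt c r X f / ε⌋₊ : ℕ) : ℝ) ≤ ε * (wt c r X f / ε) :=
        mul_le_mul_of_nonneg_left h1 hε.le
    _ = wt c r X f := by field_simp

omit [Fintype ι] [DecidableEq ι] [Nonempty ι] [Fintype V] in
private theorem PExch_lt (hε : 0 < ε) (f : Lk ι V) :
    wt c r X f ≤ ε * ((⌊wt c r X f / ε⌋₊ : ℕ) : ℝ) + ε := by
  have h1 := Nat.lt_floor_add_one (wt c r X f / ε)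
  calc wt c r X f = ε * (wt c r X f / ε) := by field_simp
    _ ≤ ε * (((⌊wt c r X f / ε⌋₊ : ℕ) : ℝ) + 1) := mul_le_mul_of_nonneg_left h1.le hε.le
    _ = _ := by ring

theorem exch_stable (hc : ∀ e, 0 ≤ c e) (hr0 : 0 ≤ r) (hr1 : r < 1) (hX : St G t X)
    (hmin : ∀ Y : Finset (Lk ι V), St G t Y → Ph c r (uX X) ≤ Ph c r (uX Y)) (hε : 0 < ε)
    (hK : ∀ f ∈ X, ⌊wt c r X f / ε⌋₊ ≤ K) {S : Finset ι} {L : List (Lk ι V)}
    (hL : Sr G t S L) :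
    mu (levX X fun f => ⌊wt c r X f / ε⌋₊) K ε S ≤ AL c r (us L) := by
  obtain ⟨A, hAX, hconA, hcardA, hdrop⟩ := drop hK hX.con hX.card hε.le hL.ne hL.len hL.con
  have h1 := hmin _ (st_union hX hAX hL.path hcardA hconA)
  have h2 : Ph c r (uX (A ∪ L.toFinset)) ≤ Ph c r (fun e => uX A e + us L e) :=
    ph_mono hc hr0 hr1.le (uX_union_list A L)
  have h12 := h1.trans h2
  have h3 : (1 - r) * ∑ f ∈ X \ A, wt c r X f ≤
      ∑ e, c e * (r ^ uX A e - r ^ uX X e) := by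
    rw [sum_wt X (X \ A), Finset.mul_sum]
    refine Finset.sum_le_sum fun e _ => ?_
    have h := edge_drop hr0 hr1.le (uX A e) (uX (X \ A) e)
    rw [← uX_sdiff hAX e] at h
    calc (1 - r) * (c e * ((uX (X \ A) e : ℝ) * r ^ (uX X e - 1))) =
          c e * ((1 - r) * ((uX (X \ A) e : ℝ) * r ^ (uX X e - 1))) := by ring
      _ ≤ c e * (r ^ uX A e - r ^ uX X e) := mul_le_mul_of_nonneg_left h (hc e)
  have h4 : ∑ e, c e * (r ^ uX A e - r ^ (uX A e + us L e)) ≤ (1 - r) * AL c r (us L) := by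
    rw [AL, Finset.mul_sum]
    refine Finset.sum_le_sum fun e _ => ?_
    have h := edge_add hr0 hr1.le (uX A e) (us L e)
    calc c e * (r ^ uX A e - r ^ (uX A e + us L e)) ≤ c e * ((1 - r) * hh r (us L e)) :=
          mul_le_mul_of_nonneg_left h (hc e)
      _ = (1 - r) * (c e * hh r (us L e)) := by ring
  have h5 : ∑ e, c e * (r ^ uX A e - r ^ uX X e) ≤
      ∑ e, c e * (r ^ uX A e - r ^ (uX A e + us L e)) := by
    have e1 : ∑ e, c e * (r ^ uX A e - r ^ uX X e) =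
        Ph c r (uX X) - ∑ e, c e * (1 - r ^ uX A e) := by
      rw [Ph, ← Finset.sum_sub_distrib]
      exact Finset.sum_congr rfl fun e _ => by ring
    have e2 : ∑ e, c e * (r ^ uX A e - r ^ (uX A e + us L e)) =
        Ph c r (fun e => uX A e + us L e) - ∑ e, c e * (1 - r ^ uX A e) := by
      rw [Ph, ← Finset.sum_sub_distrib]
      exact Finset.sum_congr rfl fun e _ => by ring
    rw [e1, e2]
    linarith
  have h6 : ∑ f ∈ X \ A, wt c r X f ≤ AL c r (us L) := by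
    have h : (1 - r) * ∑ f ∈ X \ A, wt c r X f ≤ (1 - r) * AL c r (us L) :=
      (h3.trans h5).trans h4
    exact le_of_mul_le_mul_left h (by linarith)
  have h7 : ε * ∑ f ∈ X \ A, ((⌊wt c r X f / ε⌋₊ : ℕ) : ℝ) ≤ ∑ f ∈ X \ A, wt c r X f := by
    rw [Finset.mul_sum]
    exact Finset.sum_le_sum fun f _ => PExch_floor hc hr0 hε f
  have h8 := Finset.sum_sdiff (f := fun f => ((⌊wt c r X f / ε⌋₊ : ℕ) : ℝ)) hAX
  have h9 : ε * ∑ f ∈ X, ((⌊wt c r X f / ε⌋₊ : ℕ) : ℝ) =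
      ε * ∑ f ∈ X \ A, ((⌊wt c r X f / ε⌋₊ : ℕ) : ℝ) +
      ε * ∑ f ∈ A, ((⌊wt c r X f / ε⌋₊ : ℕ) : ℝ) := by
    rw [← h8]
    ring
  linarith

theorem md_le (hc : ∀ e, 0 ≤ c e) (hr0 : 0 ≤ r) (hX : St G t X) (hε : 0 < ε)
    (hK : ∀ f ∈ X, ⌊wt c r X f / ε⌋₊ ≤ K) :
    Md c r (uX X) ≤ mu (levX X fun f => ⌊wt c r X f / ε⌋₊) K ε univ + ε * Fintype.card ι := by
  have h1 : Md c r (uX X) = ∑ f ∈ X, wt c r X f := (sum_wt X X).symm
  have h2 := mu_levX hK hX.con hX.card ε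
  have h3 : ∑ f ∈ X, wt c r X f ≤
      ∑ f ∈ X, (ε * ((⌊wt c r X f / ε⌋₊ : ℕ) : ℝ) + ε) :=
    Finset.sum_le_sum fun f _ => PExch_lt hε f
  have h4 : ∑ f ∈ X, (ε * ((⌊wt c r X f / ε⌋₊ : ℕ) : ℝ) + ε) =
      ε * ∑ f ∈ X, ((⌊wt c r X f / ε⌋₊ : ℕ) : ℝ) + X.card * ε := by
    rw [Finset.sum_add_distrib, ← Finset.mul_sum, Finset.sum_const, nsmul_eq_mul]
  have h5 : (X.card : ℝ) ≤ Fintype.card ι := by
    have := hX.card
    exact_mod_cast (by omega : X.card ≤ Fintype.card ι)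
  have h6 : (X.card : ℝ) * ε ≤ ε * Fintype.card ι := by
    rw [mul_comm]
    exact mul_le_mul_of_nonneg_left h5 hε.le
  rw [h1, h2]
  linarith

end BcrP
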