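import Pool.Agent.Lib.BcrP.PTab

/-!
MODULE PTabS. The tabulated designs satisfy `Des`, and the sum of the values `1 / beta`.
-/

namespace BcrP

open Finset BcrU

private theorem pts_allLt {n : ℕ} {p : ℕ → Bool} (h : allLt n p = true) :
    ∀ i, i < n → p i = true := by
  induction n with
  | zero => intro i hi; omega
  | succ n ih =>
    intro i hi
    rw [allLt, Bool.and_eq_true] at h
    rcases Nat.lt_succ_iff_lt_or_eq.1 hi with h1 | h1
    · exact ih h.1 i h1
    · rw [h1]; exact h.2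

private theorem pts_sumLt (n : ℕ) (p : ℕ → ℕ) : sumLt n p = ∑ i ∈ range n, p i := by
  induction n with
  | zero => simp [sumLt]
  | succ n ih => rw [sumLt, ih, Finset.sum_range_succ]

private theorem pts_okAll (l : List (ℕ × ℕ)) : ∀ i, okAll i l = true → ∀ k, k < l.length →
    ok (i + k) (l.getD k (0, 0)).1 (l.getD k (0, 0)).2 = true := by
  induction l with
  | nil => intro i _ k hk; simp at hk
  | cons a l ih =>
    intro i h k hk
    obtain ⟨q, M⟩ := a
    rw [okAll, Bool.and_eq_true] at h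
    cases k with
    | zero => simpa using h.1
    | succ k =>
      have h1 := ih (i + 1) h.2 k (by simpa using hk)
      rw [List.getD_cons_succ]
      rwa [show i + 1 + k = i + (k + 1) by ring] at h1

private theorem pts_accL (l : List (ℕ × ℕ)) : (accL l : ℝ) =
    ∑ k ∈ range l.length, (val (l.getD k (0, 0)).1 (l.getD k (0, 0)).2 : ℝ) := by
  induction l with
  | nil => simp [accL]
  | cons a l ih =>
    obtain ⟨q, M⟩ := a
    rw [accL, List.length_cons, Finset.sum_range_succ']
    simp only [List.getD_cons_succ, List.getD_cons_zero]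
    push_cast
    rw [ih]
    ring

/-- the thresholds of the table -/
private noncomputable def pth (M j : ℕ) : ℝ := (gg M j : ℝ) / 1000000

private theorem pts_des {i q M : ℕ} (h : ok i q M = true) :
    Des ((i : ℝ) / ((200 : ℕ) : ℝ)) 63 q (pth M) ∧ 0 < beta 63 q (pth M) ∧
      1 / beta 63 q (pth M) ≤ (val q M : ℝ) / 100000 := by
  unfold ok at h
  simp only [Bool.and_eq_true] at h
  obtain ⟨hq, h1, h2, h3, h4⟩ := h
  have hq' : q ≤ 63 := Nat.le_of_ble_eq_true hq
  have p1 : ∀ j, j < 63 → 1 ≤ gg M j ∧ gg M j + 1 ≤ 1000000 := by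
    intro j hj
    have := pts_allLt h1 j hj
    rw [Bool.and_eq_true] at this
    exact ⟨Nat.le_of_ble_eq_true this.1, Nat.le_of_ble_eq_true this.2⟩
  have p2 : ∀ j, j < 62 → gg M (j + 1) ≤ gg M j := fun j hj =>
    Nat.le_of_ble_eq_true (pts_allLt h2 j hj)
  have p3 : ∀ j, j < 63 → gg M j + gg M (62 - j) ≤ 1000000 := fun j hj =>
    Nat.le_of_ble_eq_true (pts_allLt h3 j hj)
  have p4 : ∀ x, x < 62 → ∀ y, y < min (x + 1) (62 - x) →
      (200 + i) * gg M x + 200 * gg M y ≤ 200 * gg M (x + y + 1) + 200000000 := fun x hx y hy =>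
    Nat.le_of_ble_eq_true (pts_allLt (pts_allLt h4 x hx) y hy)
  have panti : ∀ a b, a ≤ b → b < 63 → gg M b ≤ gg M a := by
    intro a b hab
    induction b with
    | zero =>
      intro _
      have : a = 0 := by omega
      rw [this]
    | succ b ih =>
      intro hb
      rcases Nat.lt_or_ge a (b + 1) with hlt | hge
      · exact (p2 b (by omega)).trans (ih (by omega) (by omega))
      · have : a = b + 1 := by omega
        rw [this]
  have hdes : Des ((i : ℝ) / ((200 : ℕ) : ℝ)) 63 q (pth M) := by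
    refine ⟨hq', by norm_num, ?_, ?_, ?_, ?_, ?_⟩
    · intro j hj
      have : (1 : ℝ) ≤ (gg M j : ℝ) := by exact_mod_cast (p1 j hj).1
      unfold pth
      positivity
    · intro j hj
      have : (gg M j : ℝ) + 1 ≤ 1000000 := by exact_mod_cast (p1 j hj).2
      unfold pth
      rw [div_lt_one (by norm_num)]
      linarith
    · intro a b hab hb
      have : (gg M b : ℝ) ≤ (gg M a : ℝ) := by exact_mod_cast panti a b hab hb
      unfold pth
      gcongr
    · intro x y hyx hxy
      have h5 := p4 x (by omega) y (by omega)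
      have h6 : (200 + (i : ℝ)) * (gg M x : ℝ) + 200 * (gg M y : ℝ) ≤
          200 * (gg M (x + y + 1) : ℝ) + 200000000 := by exact_mod_cast h5
      unfold pth
      push_cast
      linarith
    · intro x y hyx hx hxy
      have h5 : gg M y ≤ gg M (62 - x) := panti (62 - x) y (by omega) (by omega)
      have h6 := p3 x hx
      have h7 : (gg M x : ℝ) + (gg M y : ℝ) ≤ 1000000 := by exact_mod_cast (by omega :
        gg M x + gg M y ≤ 1000000)
      unfold pth
      linarith
  have hS1 : (∑ j ∈ range 63, pth M j) = ((sumLt 63 (gg M) : ℕ) : ℝ) / 1000000 := by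
    rw [pts_sumLt]
    push_cast
    rw [Finset.sum_div]
    rfl
  have hS2 : (∑ j ∈ range q, pth M j) = ((sumLt q (gg M) : ℕ) : ℝ) / 1000000 := by
    rw [pts_sumLt]
    push_cast
    rw [Finset.sum_div]
    rfl
  have hpos : 0 < sumLt 63 (gg M) := by
    rw [pts_sumLt]
    refine lt_of_lt_of_le (p1 0 (by norm_num)).1 ?_
    exact Finset.single_le_sum (f := fun j => gg M j) (fun j _ => Nat.zero_le _)
      (Finset.mem_range.2 (by norm_num : 0 < 63))
  have hbeta : beta 63 q (pth M) =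
      (((sumLt 63 (gg M) + 2 * sumLt q (gg M) : ℕ) : ℝ) / 1000000) / ((63 + 2 * q : ℕ) : ℝ) := by
    unfold beta
    rw [hS1, hS2]
    push_cast
    ring
  have hA : (0 : ℝ) < ((sumLt 63 (gg M) + 2 * sumLt q (gg M) : ℕ) : ℝ) := by
    exact_mod_cast (by omega : 0 < sumLt 63 (gg M) + 2 * sumLt q (gg M))
  have hB : (0 : ℝ) < ((63 + 2 * q : ℕ) : ℝ) := by
    exact_mod_cast (by omega : 0 < 63 + 2 * q)
  refine ⟨hdes, ?_, ?_⟩
  · rw [hbeta]
    positivity
  · rw [hbeta]
    unfold val
    obtain ⟨A, hAd⟩ : ∃ A, A = sumLt 63 (gg M) + 2 * sumLt q (gg M) := ⟨_, rfl⟩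
    rw [← hAd] at hA ⊢
    have hA' : 0 < A := by exact_mod_cast hA
    have h8 : (63 + 2 * q) * 100000000000 < ((63 + 2 * q) * 100000000000 / A + 1) * A := by
      have := Nat.lt_div_mul_add (a := (63 + 2 * q) * 100000000000) hA'
      calc (63 + 2 * q) * 100000000000 < (63 + 2 * q) * 100000000000 / A * A + A := this
        _ = ((63 + 2 * q) * 100000000000 / A + 1) * A := by ring
    have h9 : (((63 + 2 * q : ℕ) : ℝ)) * 100000000000 <
        (((63 + 2 * q) * 100000000000 / A + 1 : ℕ) : ℝ) * (A : ℝ) := by exact_mod_cast h8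
    have h10 : 1 / ((A : ℝ) / 1000000 / ((63 + 2 * q : ℕ) : ℝ)) =
        ((63 + 2 * q : ℕ) : ℝ) * 1000000 / (A : ℝ) := by
      field_simp
    rw [h10, div_le_div_iff₀ hA (by norm_num)]
    linarith

theorem tab_sum : ∃ Bi : ℕ → ℝ,
    (∀ i : ℕ, 1 ≤ i → i < 200 → ∃ (m q : ℕ) (θ : ℕ → ℝ), Des ((i : ℝ) / ((200 : ℕ) : ℝ)) m q θ ∧
      0 < beta m q θ ∧ 1 / beta m q θ ≤ Bi i) ∧
    (2 + ∑ i ∈ Ico 1 200, Bi i) / ((200 : ℕ) : ℝ) ≤ 1.81 := by
  refine ⟨fun i => (val (rows.getD (i - 1) (0, 0)).1 (rows.getD (i - 1) (0, 0)).2 : ℝ) / 100000,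
    ?_, ?_⟩
  · intro i h1 h2
    have h3 := pts_okAll rows 1 rows_ok (i - 1) (by rw [rows_length]; omega)
    rw [show 1 + (i - 1) = i by omega] at h3
    exact ⟨63, _, _, pts_des h3⟩
  · have h1 : ∑ i ∈ Ico 1 200, (val (rows.getD (i - 1) (0, 0)).1
        (rows.getD (i - 1) (0, 0)).2 : ℝ) / 100000 = (accL rows : ℝ) / 100000 := by
      rw [pts_accL, rows_length, Finset.sum_div, Finset.sum_Ico_eq_sum_range]
      refine Finset.sum_congr rfl fun k _ => ?_
      rw [show 1 + k - 1 = k by omega]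
    have h2 : (accL rows : ℝ) ≤ 36000000 := by exact_mod_cast rows_acc
    show (2 + ∑ i ∈ Ico 1 200, (val (rows.getD (i - 1) (0, 0)).1
        (rows.getD (i - 1) (0, 0)).2 : ℝ) / 100000) / ((200 : ℕ) : ℝ) ≤ 1.81
    rw [h1]
    push_cast
    linarith

end BcrP
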