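import Pool.Agent.Lib.BcrP.PUp
import Pool.Agent.Lib.BcrP.PTabS

/-!
The integrality gap of the bidirected cut relaxation is at most `1.81`.
-/

namespace BcrP

open Finset BcrU Bcr3

variable {V : Type} [Fintype V] [DecidableEq V] {G : SimpleGraph V} {c : Sym2 V → ℝ}

theorem upper (hc : ∀ e, 0 ≤ c e) {R : Finset V} {r : V} (hr : r ∈ R)
    (hreach : ∀ v ∈ R, G.Reachable r v) {x : V → V → ℝ} (hx : Feasible G R r x) :
    OPT G c R ≤ 1.81 * ∑ u, ∑ v, c s(u, v) * x u v := by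
  obtain ⟨Bi, h1, h2⟩ := tab_sum
  have h3 := upper_gen hc hr hreach hx (N := 200) (by norm_num) Bi h1
  have h4 : 0 ≤ ∑ u, ∑ v, c s(u, v) * x u v :=
    Finset.sum_nonneg fun u _ => Finset.sum_nonneg fun v _ => mul_nonneg (hc _) (hx.nonneg u v)
  exact h3.trans (mul_le_mul_of_nonneg_right h2 h4)

end BcrP
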