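import Pool.Agent.Lib.BcrU.Dsg

/-!
MODULE PLin (120 lines). The numerical sum for the linear designs, `N = 500`, `p = 499`.

This is an ADAPTATION of the proved file Pool/Agent/Lib/BcrU/Num.lean (same method, other numbers).
For `1 ≤ i < 500` put `q = 366 + 7 * i / 50` (natural division, `≤ 435 ≤ 499`), `s = i / 500`, `m = 2 * 499 + 1`, `θ = thl s 499` (`des_lin`). Then
`1 + s = (500 + i)/500`, `4 + s = (2000 + i)/500`, `kl s = 4 (500 - i) 500 / ((500 + i)(2000 + i))`, and `beta_lin` gives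
`1 / beta = fA i / fB i` with the natural numbers
`fA i = 2 * (999 + 2 q) * (500 + i) * (2000 + i)`,
`fB i = 999 * (500 + i) * (2000 + i) + 2000 * q * (2000 + i) - 4 * (500 - i) * q * (q + 1)` (positive, no truncation).
`Bi i = (fA i * 100000 / fB i + 1) / 100000` (natural division inside), and the sum of the numerators over `1 ≤ i < 500` is
`90511563 ≤ 90515000` by `decide +kernel` for a recursive function `acc` as in Num.lean (value computed: see `acc_le` there).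
So `(2 + 905.15) / 500 = 1.8143`.
-/

namespace BcrP

open Finset BcrU

private def PLin_fA (i : ℕ) : ℕ := 2 * (999 + 2 * (366 + 7 * i / 50)) * (500 + i) * (2000 + i)

private def PLin_fB (i : ℕ) : ℕ := 999 * (500 + i) * (2000 + i) +
  2000 * (366 + 7 * i / 50) * (2000 + i) -
  4 * (500 - i) * (366 + 7 * i / 50) * (367 + 7 * i / 50)

private def PLin_acc : ℕ → ℕ
  | 0 => 0
  | j + 1 => PLin_acc j + (PLin_fA (j + 1) * 100000 / PLin_fB (j + 1) + 1)

private theorem PLin_acc_le : PLin_acc 499 ≤ 90515000 := by decide +kernel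

private theorem PLin_acc_sum (n : ℕ) :
    ∑ j ∈ Ico 1 (n + 1), (((PLin_fA j * 100000 / PLin_fB j + 1 : ℕ) : ℝ) / 100000) =
      (PLin_acc n : ℝ) / 100000 := by
  induction n with
  | zero => simp [PLin_acc]
  | succ n ih =>
    rw [Finset.sum_Ico_succ_top (by omega), ih]
    simp only [PLin_acc]
    push_cast
    ring

private theorem PLin_fB_le {i : ℕ} (hi : i < 500) :
    4 * (500 - i) * (366 + 7 * i / 50) * (367 + 7 * i / 50) ≤
      2000 * (366 + 7 * i / 50) * (2000 + i) := by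
  have h1 : 4 * (500 - i) * (367 + 7 * i / 50) ≤ 2000 * (2000 + i) := by
    have a : 500 - i ≤ 500 := by omega
    have b : 367 + 7 * i / 50 ≤ 437 := by omega
    have c : 4 * (500 - i) * (367 + 7 * i / 50) ≤ 4 * 500 * 437 :=
      Nat.mul_le_mul (Nat.mul_le_mul le_rfl a) b
    omega
  calc 4 * (500 - i) * (366 + 7 * i / 50) * (367 + 7 * i / 50)
      = (4 * (500 - i) * (367 + 7 * i / 50)) * (366 + 7 * i / 50) := by ring
    _ ≤ (2000 * (2000 + i)) * (366 + 7 * i / 50) := Nat.mul_le_mul h1 le_rfl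
    _ = 2000 * (366 + 7 * i / 50) * (2000 + i) := by ring

private theorem PLin_fB_cast {i : ℕ} (hi : i < 500) : (PLin_fB i : ℝ) =
    999 * (500 + i) * (2000 + i) + 2000 * (366 + (7 * i / 50 : ℕ)) * (2000 + i) -
      4 * (500 - i) * (366 + (7 * i / 50 : ℕ)) * (367 + (7 * i / 50 : ℕ)) := by
  unfold PLin_fB
  rw [Nat.cast_sub (le_trans (PLin_fB_le hi) (Nat.le_add_left _ _))]
  have a : ((500 - i : ℕ) : ℝ) = 500 - i := by rw [Nat.cast_sub hi.le]; norm_num
  simp only [Nat.cast_add, Nat.cast_mul, a, Nat.cast_ofNat]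

private theorem PLin_fB_pos {i : ℕ} (hi : i < 500) : 0 < PLin_fB i := by
  unfold PLin_fB
  have h := PLin_fB_le hi
  have h3 : 0 < 999 * (500 + i) * (2000 + i) := by positivity
  omega

private theorem PLin_term {i : ℕ} (hi : i < 500) :
    0 < beta (2 * 499 + 1) (366 + 7 * i / 50) (thl ((i : ℝ) / ((500 : ℕ) : ℝ)) 499) ∧
    1 / beta (2 * 499 + 1) (366 + 7 * i / 50) (thl ((i : ℝ) / ((500 : ℕ) : ℝ)) 499) ≤
      ((PLin_fA i * 100000 / PLin_fB i + 1 : ℕ) : ℝ) / 100000 := by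
  have hi' : (i : ℝ) < 500 := by exact_mod_cast hi
  have hi0 : (0 : ℝ) ≤ i := Nat.cast_nonneg _
  have hs0 : (0 : ℝ) ≤ (i : ℝ) / ((500 : ℕ) : ℝ) := by positivity
  have hq : 366 + 7 * i / 50 ≤ 499 := by omega
  have hb := beta_lin hs0 hq
  have hfB : (0 : ℝ) < PLin_fB i := by exact_mod_cast PLin_fB_pos hi
  have hfA : (0 : ℝ) < PLin_fA i := by
    have : 0 < PLin_fA i := by unfold PLin_fA; positivity
    exact_mod_cast this
  have hA : (PLin_fA i : ℝ) =
      2 * (999 + 2 * (366 + (7 * i / 50 : ℕ))) * (500 + i) * (2000 + i) := by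
    unfold PLin_fA
    simp only [Nat.cast_add, Nat.cast_mul, Nat.cast_ofNat]
  have hB := PLin_fB_cast hi
  have key : beta (2 * 499 + 1) (366 + 7 * i / 50) (thl ((i : ℝ) / ((500 : ℕ) : ℝ)) 499) =
      (PLin_fB i : ℝ) / PLin_fA i := by
    rw [hb, hA, hB]
    have f1 : (1 : ℝ) + (i : ℝ) / ((500 : ℕ) : ℝ) = (500 + i) / 500 := by
      push_cast; field_simp
    have hk : kl ((i : ℝ) / ((500 : ℕ) : ℝ)) = 4 * (500 - i) * 500 /
        ((500 + i) * (2000 + i)) := by
      unfold kl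
      have f2 : (1 : ℝ) - (i : ℝ) / ((500 : ℕ) : ℝ) = (500 - i) / 500 := by
        push_cast; field_simp
      have f3 : (4 : ℝ) + (i : ℝ) / ((500 : ℕ) : ℝ) = (2000 + i) / 500 := by
        push_cast; field_simp; ring
      rw [f1, f2, f3]
      field_simp
    rw [hk, f1]
    have hQ : (0 : ℝ) ≤ ((7 * i / 50 : ℕ) : ℝ) := Nat.cast_nonneg _
    have hc1 : ((499 : ℕ) : ℝ) = 499 := by norm_num
    have hc2 : ((366 + 7 * i / 50 : ℕ) : ℝ) = 366 + ((7 * i / 50 : ℕ) : ℝ) := by push_cast; ring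
    rw [hc1, hc2]
    generalize ((7 * i / 50 : ℕ) : ℝ) = Q at *
    have e1 : (500 + (i : ℝ)) ≠ 0 := by positivity
    have e2 : (2000 + (i : ℝ)) ≠ 0 := by positivity
    have hd : (999 + 2 * (366 + Q)) ≠ 0 := by positivity
    have hX : ((2 * (499 : ℝ) + 1) / 2 + 2 * (366 + Q) / ((500 + i) / 500) -
        4 * (500 - i) * 500 / ((500 + i) * (2000 + i)) *
          ((366 + Q) * (366 + Q + 1)) / (2 * 499 + 2)) =
        (999 * (500 + i) * (2000 + i) + 2000 * (366 + Q) * (2000 + i) -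
          4 * (500 - i) * (366 + Q) * (367 + Q)) / (2 * (500 + i) * (2000 + i)) := by
      rw [div_div_eq_mul_div]
      field_simp
      ring
    rw [hX, show (2 * (499 : ℝ) + 1 + 2 * (366 + Q)) = 999 + 2 * (366 + Q) by ring, div_div]
    congr 1
    ring
  rw [key, one_div_div]
  refine ⟨div_pos hfB hfA, ?_⟩
  rw [div_le_div_iff₀ hfB (by norm_num)]
  have := (Nat.lt_mul_div_succ (PLin_fA i * 100000) (PLin_fB_pos hi)).le
  have h2 : PLin_fA i * 100000 ≤ (PLin_fA i * 100000 / PLin_fB i + 1) * PLin_fB i := by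
    rw [mul_comm (PLin_fA i * 100000 / PLin_fB i + 1)]
    exact this
  exact_mod_cast h2

theorem lin_sum : ∃ Bi : ℕ → ℝ,
    (∀ i : ℕ, 1 ≤ i → i < 500 → ∃ (m q : ℕ) (θ : ℕ → ℝ), Des ((i : ℝ) / ((500 : ℕ) : ℝ)) m q θ ∧
      0 < beta m q θ ∧ 1 / beta m q θ ≤ Bi i) ∧
    (2 + ∑ i ∈ Ico 1 500, Bi i) / ((500 : ℕ) : ℝ) ≤ 1.8143 := by
  refine ⟨fun i => ((PLin_fA i * 100000 / PLin_fB i + 1 : ℕ) : ℝ) / 100000, ?_, ?_⟩
  · intro i _ hi
    have hi' : (i : ℝ) < 500 := by exact_mod_cast hi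
    have hs0 : (0 : ℝ) ≤ (i : ℝ) / ((500 : ℕ) : ℝ) := by positivity
    have hs1 : (i : ℝ) / ((500 : ℕ) : ℝ) ≤ 1 := by
      rw [div_le_one (by norm_num)]
      push_cast
      exact hi'.le
    have hq : 366 + 7 * i / 50 ≤ 499 := by omega
    obtain ⟨h1, h2⟩ := PLin_term hi
    exact ⟨2 * 499 + 1, 366 + 7 * i / 50, thl ((i : ℝ) / ((500 : ℕ) : ℝ)) 499,
      des_lin hs0 hs1 hq, h1, h2⟩
  · rw [PLin_acc_sum 499]
    have h : (PLin_acc 499 : ℝ) ≤ 90515000 := by exact_mod_cast PLin_acc_le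
    rw [div_le_iff₀ (by norm_num)]
    push_cast
    linarith

end BcrP
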