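import Pool.Agent.Lib.BcrP.PDefs

/-!
MODULE PNum. Elementary inequalities for powers (only Mathlib; `hh r n = ∑ i ∈ range n, r ^ i`).
-/

namespace BcrP

open Finset

variable {r : ℝ}

theorem hh_zero : hh r 0 = 0 := by
  simp [hh]

theorem hh_succ (n : ℕ) : hh r (n + 1) = hh r n + r ^ n := by
  simp [hh, Finset.sum_range_succ]

theorem hh_nonneg (hr : 0 ≤ r) (n : ℕ) : 0 ≤ hh r n := by
  unfold hh
  exact Finset.sum_nonneg (fun i _ => pow_nonneg hr i)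

theorem hh_mono (hr : 0 ≤ r) {a b : ℕ} (h : a ≤ b) : hh r a ≤ hh r b := by
  unfold hh
  exact Finset.sum_le_sum_of_subset_of_nonneg (Finset.range_mono h) (fun i _ _ => pow_nonneg hr i)

theorem hh_add (hr0 : 0 ≤ r) (hr1 : r ≤ 1) (a b : ℕ) : hh r (a + b) ≤ hh r a + hh r b := by
  induction b with
  | zero => simp [hh_zero]
  | succ b ih =>
    rw [← add_assoc, hh_succ, hh_succ]
    have h : r ^ (a + b) ≤ r ^ b := pow_le_pow_of_le_one hr0 hr1 (Nat.le_add_left b a)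
    linarith

theorem one_sub_hh (n : ℕ) : (1 - r) * hh r n = 1 - r ^ n := by
  unfold hh
  exact mul_neg_geom_sum r n

theorem edge_drop (hr0 : 0 ≤ r) (hr1 : r ≤ 1) (m d : ℕ) :
    (1 - r) * ((d : ℝ) * r ^ (m + d - 1)) ≤ r ^ m - r ^ (m + d) := by
  have h1r : 0 ≤ 1 - r := sub_nonneg.2 hr1
  induction d with
  | zero => simp
  | succ d ih =>
    have e1 : m + (d + 1) - 1 = m + d := by omega
    rw [e1]
    have e2 : r ^ (m + (d + 1)) = r ^ (m + d) * r := by rw [← add_assoc, pow_succ]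
    rw [e2]
    have h2 : (d : ℝ) * r ^ (m + d) ≤ (d : ℝ) * r ^ (m + d - 1) :=
      mul_le_mul_of_nonneg_left (pow_le_pow_of_le_one hr0 hr1 (Nat.sub_le _ _)) (Nat.cast_nonneg d)
    have h3 := mul_le_mul_of_nonneg_left h2 h1r
    push_cast
    nlinarith [h3, ih]

theorem edge_add (hr0 : 0 ≤ r) (hr1 : r ≤ 1) (m k : ℕ) :
    r ^ m - r ^ (m + k) ≤ (1 - r) * hh r k := by
  rw [one_sub_hh, pow_add]
  have h1 : r ^ m ≤ 1 := pow_le_one₀ hr0 hr1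
  have h2 : r ^ k ≤ 1 := pow_le_one₀ hr0 hr1
  nlinarith [mul_nonneg (sub_nonneg.2 h1) (sub_nonneg.2 h2)]

theorem tangent {ρ ρ' : ℝ} (h0 : 0 ≤ ρ') (h : ρ' ≤ ρ) (n : ℕ) :
    ρ ^ n - ρ' ^ n ≤ (ρ - ρ') * ((n : ℝ) * ρ ^ (n - 1)) := by
  have hρ : 0 ≤ ρ := h0.trans h
  have hd : 0 ≤ ρ - ρ' := sub_nonneg.2 h
  induction n with
  | zero => simp
  | succ n ih =>
    have e1 : n + 1 - 1 = n := by omega
    rw [e1]
    have h1 : ρ' ^ n ≤ ρ ^ n := pow_le_pow_left₀ h0 h n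
    have h2 : (n : ℝ) * (ρ * ρ ^ (n - 1)) = (n : ℝ) * ρ ^ n := by
      rcases Nat.eq_zero_or_pos n with h | h
      · subst h; simp
      · obtain ⟨k, rfl⟩ : ∃ k, n = k + 1 := ⟨n - 1, by omega⟩
        simp only [Nat.add_sub_cancel]
        rw [pow_succ ρ k]; ring
    have h3 := mul_le_mul_of_nonneg_left ih hρ
    have h4 := mul_le_mul_of_nonneg_left h1 hd
    have e2 : ρ ^ (n + 1) - ρ' ^ (n + 1) = ρ * (ρ ^ n - ρ' ^ n) + (ρ - ρ') * ρ' ^ n := by ring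
    have e3 : ρ * ((ρ - ρ') * ((n : ℝ) * ρ ^ (n - 1))) = (ρ - ρ') * ((n : ℝ) * ρ ^ n) := by
      rw [← h2]; ring
    rw [e2]
    rw [e3] at h3
    push_cast
    nlinarith [h3, h4]

theorem bern {ρ : ℝ} (h0 : 0 ≤ ρ) (h1 : ρ ≤ 1) (n : ℕ) : 1 - ρ ^ n ≤ (1 - ρ) * n := by
  have h := tangent h0 h1 n
  simpa using h

end BcrP
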