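import Pool.Agent.Lib.BcrP.PNum

/-!
MODULE PRec (110 lines). The envelope of the expected costs (only finite minima and `PNum`).

`V j = min_X Ph c (ρ j) (n X)` over the finite nonempty type `𝒳`; choose minimisers `X j` (`Finite.exists_min`).
* One step: for `j < N`: `Ph c (ρ (j+1)) (n (X (j+1))) ≤ Ph c (ρ (j+1)) (n (X j))` and for every `n`:
  `Ph c (ρ (j+1)) n ≤ Ph c (ρ j) n + (ρ j - ρ (j+1)) * Md c (ρ j) n` (termwise `tangent`: `ρ^k - ρ'^k ≤ (ρ - ρ') (k ρ^(k-1))`, `c e ≥ 0`).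
  With `hm`: `V (j+1) ≤ V j + (ρ j - ρ (j+1)) * b j`.
* Telescoping: `V N ≤ V 0 + ∑_{j<N} (ρ j - ρ (j+1)) b j`. `ρ N = 0`, so `B ≤ V N` by `hB`.
* `V 0 ≤ Ph c (ρ 0) (n X0) ≤ (1 - ρ 0) * ∑ e, c e * n X0 e` (termwise `bern`).
-/

namespace BcrP

open Finset

private lemma PRec_step {V : Type} [Fintype V] [DecidableEq V] {c : Sym2 V → ℝ}
    (hc : ∀ e, 0 ≤ c e) (n : Sym2 V → ℕ) {r s : ℝ} (hs0 : 0 ≤ s) (hsr : s ≤ r) :
    Ph c s n ≤ Ph c r n + (r - s) * Md c r n := by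
  unfold Ph Md
  rw [Finset.mul_sum, ← Finset.sum_add_distrib]
  refine Finset.sum_le_sum (fun e _ => ?_)
  have h2 := mul_le_mul_of_nonneg_left (tangent hs0 hsr (n e)) (hc e)
  have h3 : c e * ((r - s) * ((n e : ℝ) * r ^ (n e - 1))) =
      (r - s) * (c e * ((n e : ℝ) * r ^ (n e - 1))) := by ring
  rw [h3] at h2
  linarith

theorem prec {𝒳 V : Type} [Finite 𝒳] [Fintype V] [DecidableEq V] {c : Sym2 V → ℝ}
    (hc : ∀ e, 0 ≤ c e) (n : 𝒳 → Sym2 V → ℕ) {N : ℕ} (ρ : ℕ → ℝ)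
    (h0 : ∀ j, j ≤ N → 0 ≤ ρ j) (h1 : ∀ j, j ≤ N → ρ j ≤ 1) (hanti : ∀ j, j < N → ρ (j + 1) ≤ ρ j)
    (hN : ρ N = 0) (b : ℕ → ℝ) {B : ℝ} (hB : ∀ X, B ≤ Ph c 0 (n X))
    (hm : ∀ j, j < N → ∀ X, (∀ Y, Ph c (ρ j) (n X) ≤ Ph c (ρ j) (n Y)) → Md c (ρ j) (n X) ≤ b j)
    (X0 : 𝒳) :
    B ≤ (1 - ρ 0) * (∑ e, c e * (n X0 e : ℝ)) + ∑ j ∈ range N, (ρ j - ρ (j + 1)) * b j := by
  have hfin : Nonempty 𝒳 := ⟨X0⟩
  have hmin : ∀ j : ℕ, ∃ X : 𝒳, ∀ Y : 𝒳, Ph c (ρ j) (n X) ≤ Ph c (ρ j) (n Y) := by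
    intro j
    exact Finite.exists_min (fun X : 𝒳 => Ph c (ρ j) (n X))
  choose X hX using hmin
  have hstep : ∀ j, j < N → Ph c (ρ (j + 1)) (n (X (j + 1))) ≤
      Ph c (ρ j) (n (X j)) + (ρ j - ρ (j + 1)) * b j := by
    intro j hj
    have h2 := PRec_step hc (n (X j)) (h0 (j + 1) (by omega)) (hanti j hj)
    have h3 : (ρ j - ρ (j + 1)) * Md c (ρ j) (n (X j)) ≤ (ρ j - ρ (j + 1)) * b j :=
      mul_le_mul_of_nonneg_left (hm j hj (X j) (hX j)) (by linarith [hanti j hj])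
    linarith [hX (j + 1) (X j)]
  have htel : ∀ k, k ≤ N → Ph c (ρ k) (n (X k)) ≤
      Ph c (ρ 0) (n (X 0)) + ∑ j ∈ range k, (ρ j - ρ (j + 1)) * b j := by
    intro k
    induction k with
    | zero => intro _; simp
    | succ k ih =>
      intro hk
      rw [Finset.sum_range_succ]
      linarith [ih (by omega), hstep k (by omega)]
  have h4 := htel N le_rfl
  rw [hN] at h4
  have h5 := hB (X N)
  have h6 : Ph c (ρ 0) (n (X 0)) ≤ Ph c (ρ 0) (n X0) := hX 0 X0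
  have h7 : Ph c (ρ 0) (n X0) ≤ (1 - ρ 0) * (∑ e, c e * (n X0 e : ℝ)) := by
    unfold Ph
    rw [Finset.mul_sum]
    refine Finset.sum_le_sum (fun e _ => ?_)
    have h8 := mul_le_mul_of_nonneg_left
      (bern (h0 0 (Nat.zero_le _)) (h1 0 (Nat.zero_le _)) (n X0 e)) (hc e)
    have h9 : c e * ((1 - ρ 0) * (n X0 e : ℝ)) = (1 - ρ 0) * (c e * (n X0 e : ℝ)) := by ring
    rw [h9] at h8
    exact h8
  linarith

end BcrP
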