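import Pool.Agent.Lib.BcrP.PData

/-!
MODULE PTab. The numerical sum for the tabulated designs, `N = 200`, `m = 63`.
-/

namespace BcrP

open Finset BcrU

/-- the threshold `j` in units of `10 ^ (-6)` -/
def gg (M j : ℕ) : ℕ := M / 2 ^ (20 * j) % 2 ^ 20

/-- bounded universal quantifier -/
def allLt : ℕ → (ℕ → Bool) → Bool
  | 0, _ => true
  | n + 1, p => allLt n p && p n

/-- bounded sum -/
def sumLt : ℕ → (ℕ → ℕ) → ℕ
  | 0, _ => 0
  | n + 1, p => sumLt n p + p n

/-- conditions for one design -/
def ok (i q M : ℕ) : Bool :=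
  Nat.ble q 63 &&
  (allLt 63 (fun j => Nat.ble 1 (gg M j) && Nat.ble (gg M j + 1) 1000000) &&
  (allLt 62 (fun j => Nat.ble (gg M (j + 1)) (gg M j)) &&
  (allLt 63 (fun j => Nat.ble (gg M j + gg M (62 - j)) 1000000) &&
  allLt 62 (fun x => allLt (min (x + 1) (62 - x)) fun y =>
    Nat.ble ((200 + i) * gg M x + 200 * gg M y) (200 * gg M (x + y + 1) + 200000000)))))

/-- conditions for all designs of the list -/
def okAll : ℕ → List (ℕ × ℕ) → Bool
  | _, [] => true
  | i, (q, M) :: l => ok i q M && okAll (i + 1) l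

/-- upper bound for `10 ^ 5 / beta` -/
def val (q M : ℕ) : ℕ :=
  (63 + 2 * q) * 100000000000 / (sumLt 63 (gg M) + 2 * sumLt q (gg M)) + 1

/-- the sum of these bounds -/
def accL : List (ℕ × ℕ) → ℕ
  | [] => 0
  | (q, M) :: l => val q M + accL l

set_option maxRecDepth 100000 in
theorem rows_length : rows.length = 199 := by decide +kernel

set_option maxRecDepth 100000 in
theorem rows_acc : accL rows ≤ 36000000 := by decide +kernel

set_option maxRecDepth 100000 in
theorem rows_ok : okAll 1 rows = true := by decide +kernel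

end BcrP
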