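import Pool.Agent.Lib.BcrP.PBound
import Pool.Agent.Lib.BcrP.PRec

/-!
MODULE PUp (200 lines). The integrality gap is at most the Riemann sum of `1 / beta`.

`ι = {v // v ∈ R}`, `t = Subtype.val`, `i0 = ⟨r, hr⟩`, `val = ∑ c x`, `X0` from `exists_st`, `C = ∑ e, c e * uX X0 e ≥ 0`.
* `des_mono`: `Des s' → Des s` for `s ≤ s'` (only `A` depends on `s`, `θ i > 0`). `des_one`: `Des 1 1 0 (fun _ => 1/2)`, `beta 1 0 _ = 1/2`.
* `step_eps`: for `0 < η < 1/N` apply `prec` to `𝒳 = {X // St G t X}` (finite: subtype of a finite type), `ρ 0 = 1 - η`, `ρ j = 1 - j/N` for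
  `1 ≤ j ≤ N` (antitone, in `[0,1]`, `ρ N = 0`), `B = OPT` (`opt_le_state`), and with `W = (1 + 2 ε/δ) val ≥ 0`:
  `b 0 = 2 W + ε card` (`state_bound` for `s = 1 - η < 1` with `des_one`, `des_mono`), `b j = Bi (N - j) * W + ε card` for `1 ≤ j < N` (`state_bound`
  for `s = 1 - j/N = (N-j)/N` with the design of `hDes (N - j)`; `Md - ε card ≤ W / beta ≤ Bi * W` as `1/beta ≤ Bi` and `W ≥ 0`; `beta > 0`).
  Minimality in the subtype gives `hmin`. Result: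
  `OPT ≤ η C + (1/N - η) (2 W + ε card) + ∑_{1≤j<N} (1/N) (Bi (N-j) W + ε card)`
  `≤ η C + W (2 + ∑_{i ∈ Ico 1 N} Bi i)/N + ε card` (reflect the sum: `Finset.sum_range_reflect`-like or `Finset.sum_nbij`; `Bi ≥ 0`).
* `upper_gen`: let `η → 0` and `ε → 0` (`δ` from `exists_delta`: see Pool/Agent/Lib/BcrR/RFin.lean `upper` for the pattern: all error terms are
  `ε * const + η * const`; `le_of_forall_pos_le_add`).
-/

namespace BcrP

open Finset BcrU Bcr3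

variable {V : Type} [Fintype V] [DecidableEq V] {G : SimpleGraph V} {c : Sym2 V → ℝ}

theorem des_mono {s s' : ℝ} (h : s ≤ s') {m q : ℕ} {θ : ℕ → ℝ} (hD : Des s' m q θ) :
    Des s m q θ := by
  refine ⟨hD.hq, hD.hm, hD.pos, hD.lt_one, hD.anti, ?_, hD.B⟩
  intro i j hij hm
  have h1 := hD.A i j hij hm
  have h2 := hD.pos i (by omega)
  nlinarith [mul_le_mul_of_nonneg_right h h2.le]

theorem des_one : Des 1 1 0 (fun _ => 1 / 2) ∧ beta 1 0 (fun _ => 1 / 2) = 1 / 2 := by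
  refine ⟨⟨by norm_num, by norm_num, ?_, ?_, ?_, ?_, ?_⟩, ?_⟩
  · intro j _
    norm_num
  · intro j _
    norm_num
  · intro i j _ _
    exact le_rfl
  · intro i j _ h
    omega
  · intro i j _ _ _
    norm_num
  · unfold beta
    norm_num

omit [DecidableEq V] in
private lemma PUp_delta (hc : ∀ e, 0 ≤ c e) : ∃ δ : ℝ, 0 < δ ∧ ∀ a, c a = 0 ∨ δ ≤ c a := by
  classical
  by_cases h : ∃ a, c a ≠ 0
  · obtain ⟨a1, ha1⟩ := h
    have hne : Nonempty {a : Sym2 V // c a ≠ 0} := ⟨⟨a1, ha1⟩⟩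
    obtain ⟨a0, ha0⟩ := Finite.exists_min (fun a : {a : Sym2 V // c a ≠ 0} => c a.1)
    refine ⟨c a0.1, lt_of_le_of_ne (hc _) (Ne.symm a0.2), fun a => ?_⟩
    by_cases ha : c a = 0
    · exact Or.inl ha
    · exact Or.inr (ha0 ⟨a, ha⟩)
  · push Not at h
    exact ⟨1, one_pos, fun a => Or.inl (h a)⟩

private lemma PUp_val (hc : ∀ e, 0 ≤ c e) {R : Finset V} {r : V} {x : V → V → ℝ}
    (hx : Feasible G R r x) : 0 ≤ ∑ u, ∑ v, c s(u, v) * x u v :=
  Finset.sum_nonneg fun u _ => Finset.sum_nonneg fun v _ => mul_nonneg (hc _) (hx.nonneg u v)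

private lemma PUp_sum (N : ℕ) (hN : 0 < N) (Bi : ℕ → ℝ) (W D η : ℝ) (hη : 0 ≤ η)
    (hW : 0 ≤ 2 * W + D) (ρ b : ℕ → ℝ) (hρ0 : ρ 0 = 1 - η)
    (hρ : ∀ j : ℕ, 1 ≤ j → ρ j = 1 - (j : ℝ) / N) (hb0 : b 0 = 2 * W + D)
    (hb : ∀ j : ℕ, 1 ≤ j → b j = Bi (N - j) * W + D) :
    ∑ j ∈ range N, (ρ j - ρ (j + 1)) * b j ≤
      ((2 + ∑ i ∈ Ico 1 N, Bi i) / N) * W + D := by
  have hNr : (0 : ℝ) < N := by exact_mod_cast hN
  rw [Finset.range_eq_Ico, Finset.sum_eq_sum_Ico_succ_bot hN]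
  have h1 : (ρ 0 - ρ (0 + 1)) * b 0 ≤ (1 / N : ℝ) * (2 * W + D) := by
    rw [hρ0, hρ (0 + 1) (by norm_num), hb0]
    refine mul_le_mul_of_nonneg_right ?_ hW
    push_cast
    linarith
  have h2 : ∑ j ∈ Ico (0 + 1) N, (ρ j - ρ (j + 1)) * b j =
      ∑ j ∈ Ico 1 N, (1 / N : ℝ) * (Bi (N - j) * W + D) := by
    refine Finset.sum_congr rfl fun j hj => ?_
    have hj1 := (Finset.mem_Ico.1 hj).1
    rw [hρ j hj1, hρ (j + 1) (by omega), hb j hj1]
    have : (1 - (j : ℝ) / N - (1 - ((j + 1 : ℕ) : ℝ) / N)) = 1 / N := by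
      push_cast
      ring
    rw [this]
  have h3 : ∑ j ∈ Ico 1 N, (1 / N : ℝ) * (Bi (N - j) * W + D) =
      ∑ i ∈ Ico 1 N, (1 / N : ℝ) * (Bi i * W + D) := by
    have h4 := Finset.sum_Ico_reflect (fun i => (1 / N : ℝ) * (Bi i * W + D)) 1
      (m := N) (n := N) (by omega)
    have e1 : N + 1 - N = 1 := by omega
    have e2 : N + 1 - 1 = N := by omega
    rw [e1, e2] at h4
    exact h4
  rw [h2, h3, ← Finset.mul_sum, Finset.sum_add_distrib, ← Finset.sum_mul, Finset.sum_const,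
    Nat.card_Ico, nsmul_eq_mul]
  have h5 : ((N - 1 : ℕ) : ℝ) = (N : ℝ) - 1 := by
    rw [Nat.cast_sub (by omega)]
    norm_num
  rw [h5]
  have h6 : (1 / N : ℝ) * (2 * W + D) +
      1 / N * ((∑ i ∈ Ico 1 N, Bi i) * W + ((N : ℝ) - 1) * D) =
      ((2 + ∑ i ∈ Ico 1 N, Bi i) / N) * W + D := by
    field_simp
    ring
  linarith

theorem step_eps (hc : ∀ e, 0 ≤ c e) {R : Finset V} {r : V} (hr : r ∈ R)
    (hreach : ∀ v ∈ R, G.Reachable r v) {x : V → V → ℝ} (hx : Feasible G R r x) {δ : ℝ}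
    (hδ : 0 < δ) (hcm : ∀ a, c a = 0 ∨ δ ≤ c a) {N : ℕ} (hN : 0 < N) (Bi : ℕ → ℝ)
    (hDes : ∀ i, 1 ≤ i → i < N → ∃ (m q : ℕ) (θ : ℕ → ℝ), Des ((i : ℝ) / N) m q θ ∧
      0 < beta m q θ ∧ 1 / beta m q θ ≤ Bi i) :
    ∃ C : ℝ, 0 ≤ C ∧ ∀ ε η : ℝ, 0 < ε → 0 < η → η < 1 / N →
      OPT G c R ≤ η * C + ((2 + ∑ i ∈ Ico 1 N, Bi i) / N) *
        ((1 + 2 * ε / δ) * ∑ u, ∑ v, c s(u, v) * x u v) + ε * R.card := by
  have hNr : (0 : ℝ) < N := by exact_mod_cast hN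
  have hval := PUp_val hc hx
  obtain ⟨X0, hX0⟩ := exists_st (ι := {v // v ∈ R}) (t := fun i => i.1) (G := G)
    (fun i => hreach i.1 i.2) (i0 := ⟨r, hr⟩) rfl
  refine ⟨∑ e, c e * (uX X0 e : ℝ),
    Finset.sum_nonneg fun e _ => mul_nonneg (hc e) (Nat.cast_nonneg _), ?_⟩
  intro ε η hε hη hηN
  obtain ⟨W, hW⟩ : ∃ W : ℝ, W = (1 + 2 * ε / δ) * ∑ u, ∑ v, c s(u, v) * x u v := ⟨_, rfl⟩
  have hW0 : 0 ≤ W := by
    rw [hW]
    have : 0 ≤ 2 * ε / δ := by positivity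
    exact mul_nonneg (by linarith) hval
  have hcard : (Fintype.card {v // v ∈ R} : ℝ) = R.card := by
    rw [Fintype.card_coe]
  have hN1 : (1 : ℝ) ≤ N := by exact_mod_cast hN
  have hη1 : η < 1 := lt_of_lt_of_le hηN (by rw [div_le_one hNr]; exact hN1)
  obtain ⟨ρ, hρd⟩ : ∃ ρ : ℕ → ℝ,
      ρ = fun j : ℕ => if j = 0 then 1 - η else 1 - (j : ℝ) / N := ⟨_, rfl⟩
  obtain ⟨b, hbd⟩ : ∃ b : ℕ → ℝ, b = fun j : ℕ => if j = 0 then 2 * W + ε * R.card else
    Bi (N - j) * W + ε * R.card := ⟨_, rfl⟩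
  have hρ0 : ρ 0 = 1 - η := by rw [hρd]; simp
  have hρ : ∀ j : ℕ, 1 ≤ j → ρ j = 1 - (j : ℝ) / N := by
    intro j hj
    rw [hρd]
    exact if_neg (by omega)
  have hb0 : b 0 = 2 * W + ε * R.card := by rw [hbd]; simp
  have hb : ∀ j : ℕ, 1 ≤ j → b j = Bi (N - j) * W + ε * R.card := by
    intro j hj
    rw [hbd]
    exact if_neg (by omega)
  have hfr : ∀ j : ℕ, j ≤ N → (j : ℝ) / N ≤ 1 := by
    intro j hj
    rw [div_le_one hNr]
    exact_mod_cast hj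
  have h0 : ∀ j, j ≤ N → 0 ≤ ρ j := by
    intro j hj
    rcases Nat.eq_zero_or_pos j with h | h
    · rw [h, hρ0]
      linarith
    · rw [hρ j h]
      linarith [hfr j hj]
  have h1 : ∀ j, j ≤ N → ρ j ≤ 1 := by
    intro j hj
    rcases Nat.eq_zero_or_pos j with h | h
    · rw [h, hρ0]
      linarith
    · rw [hρ j h]
      have : 0 ≤ (j : ℝ) / N := by positivity
      linarith
  have hanti : ∀ j, j < N → ρ (j + 1) ≤ ρ j := by
    intro j hj
    rw [hρ (j + 1) (by omega)]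
    rcases Nat.eq_zero_or_pos j with h | h
    · rw [h, hρ0]
      simp only [zero_add, Nat.cast_one]
      linarith
    · rw [hρ j h]
      have : (j : ℝ) / N ≤ ((j + 1 : ℕ) : ℝ) / N := by
        apply div_le_div_of_nonneg_right _ hNr.le
        push_cast
        linarith
      linarith
  have hρN : ρ N = 0 := by
    rw [hρ N hN, div_self hNr.ne']
    norm_num
  have hmain := prec (𝒳 := {X : Finset (Lk {v // v ∈ R} V) // St G (fun i => i.1) X}) hc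
    (fun X => uX X.1) (N := N) ρ h0 h1 hanti hρN b (B := OPT G c R)
    (fun X => opt_le_state hc hr (fun v hv => ⟨⟨v, hv⟩, rfl⟩) X.2)
    (by
      intro j hj X hXmin
      have hs0 := h0 j hj.le
      have hs1 : ρ j < 1 := by
        rcases Nat.eq_zero_or_pos j with h | h
        · rw [h, hρ0]
          linarith
        · rw [hρ j h]
          have : 0 < (j : ℝ) / N := div_pos (by exact_mod_cast h) hNr
          linarith
      have hmin : ∀ Y : Finset (Lk {v // v ∈ R} V), St G (fun i => i.1) Y →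
          Ph c (ρ j) (uX X.1) ≤ Ph c (ρ j) (uX Y) := fun Y hY => hXmin ⟨Y, hY⟩
      rcases Nat.eq_zero_or_pos j with h | h
      · have hD : Des (ρ j) 1 0 (fun _ => 1 / 2) :=
          des_mono hs1.le des_one.1
        have h3 := state_bound (ι := {v // v ∈ R}) (t := fun i => i.1) (i0 := ⟨r, hr⟩) hc hx
          (fun i => i.2) (fun i => hreach i.1 i.2) rfl hs0 hs1 X.2 hmin hε hD hδ hcm
        rw [des_one.2, hcard, ← hW] at h3
        rw [h, hb0]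
        rw [h] at h3
        linarith
      · have hjN : (ρ j) = ((N - j : ℕ) : ℝ) / N := by
          rw [hρ j h, Nat.cast_sub hj.le, sub_div, div_self hNr.ne']
        obtain ⟨m, q, θ, hD, hbp, hbi⟩ := hDes (N - j) (by omega) (by omega)
        rw [← hjN] at hD
        have h3 := state_bound (ι := {v // v ∈ R}) (t := fun i => i.1) (i0 := ⟨r, hr⟩) hc hx
          (fun i => i.2) (fun i => hreach i.1 i.2) rfl hs0 hs1 X.2 hmin hε hD hδ hcm
        rw [hcard, ← hW] at h3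
        rw [hb j h]
        have h4 : Md c (ρ j) (uX X.1) - ε * (R.card : ℝ) ≤ W / beta m q θ := by
          rw [le_div_iff₀ hbp]
          linarith
        have h5 : W / beta m q θ = 1 / beta m q θ * W := by ring
        have h6 := mul_le_mul_of_nonneg_right hbi hW0
        linarith)
    ⟨X0, hX0⟩
  have hsum := PUp_sum N hN Bi W (ε * R.card) η hη.le (by positivity) ρ b hρ0 hρ hb0 hb
  rw [hρ0] at hmain
  have e1 : 1 - (1 - η) = η := by ring
  rw [e1] at hmain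
  rw [← hW]
  have hmain' : OPT G c R ≤ η * (∑ e, c e * (uX X0 e : ℝ)) +
      ∑ j ∈ range N, (ρ j - ρ (j + 1)) * b j := hmain
  linarith

theorem upper_gen (hc : ∀ e, 0 ≤ c e) {R : Finset V} {r : V} (hr : r ∈ R)
    (hreach : ∀ v ∈ R, G.Reachable r v) {x : V → V → ℝ} (hx : Feasible G R r x) {N : ℕ}
    (hN : 0 < N) (Bi : ℕ → ℝ)
    (hDes : ∀ i, 1 ≤ i → i < N → ∃ (m q : ℕ) (θ : ℕ → ℝ), Des ((i : ℝ) / N) m q θ ∧
      0 < beta m q θ ∧ 1 / beta m q θ ≤ Bi i) :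
    OPT G c R ≤ ((2 + ∑ i ∈ Ico 1 N, Bi i) / N) * ∑ u, ∑ v, c s(u, v) * x u v := by
  have hNr : (0 : ℝ) < N := by exact_mod_cast hN
  obtain ⟨δ, hδ, hcm⟩ := PUp_delta hc
  obtain ⟨C, hC, hall⟩ := step_eps hc hr hreach hx hδ hcm hN Bi hDes
  obtain ⟨val, hvald⟩ : ∃ val : ℝ, val = ∑ u, ∑ v, c s(u, v) * x u v := ⟨_, rfl⟩
  obtain ⟨B, hB⟩ : ∃ B : ℝ, B = (2 + ∑ i ∈ Ico 1 N, Bi i) / N := ⟨_, rfl⟩
  rw [← hvald, ← hB] at hall ⊢
  obtain ⟨D, hD⟩ : ∃ D : ℝ, D = |B * (2 / δ) * val + R.card| := ⟨_, rfl⟩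
  have hD0 : 0 ≤ D := by
    rw [hD]
    exact abs_nonneg _
  refine le_of_forall_pos_le_add fun ξ hξ => ?_
  have hε : 0 < ξ / (2 * (D + 1)) := by positivity
  have hη : 0 < min (1 / (2 * (N : ℝ))) (ξ / (2 * (C + 1))) := by
    refine lt_min (by positivity) (by positivity)
  have hηN : min (1 / (2 * (N : ℝ))) (ξ / (2 * (C + 1))) < 1 / N := by
    refine lt_of_le_of_lt (min_le_left _ _) ?_
    rw [div_lt_div_iff₀ (by positivity) hNr]
    linarith
  have h := hall _ _ hε hη hηN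
  have h1 : min (1 / (2 * (N : ℝ))) (ξ / (2 * (C + 1))) * C ≤ ξ / 2 := by
    refine (mul_le_mul_of_nonneg_right (min_le_right _ _) hC).trans ?_
    rw [div_mul_eq_mul_div, div_le_div_iff₀ (by positivity) (by norm_num)]
    nlinarith
  have h2 : ξ / (2 * (D + 1)) * (B * (2 / δ) * val + R.card) ≤ ξ / 2 := by
    have h3 : B * (2 / δ) * val + R.card ≤ D := by
      rw [hD]
      exact le_abs_self _
    refine (mul_le_mul_of_nonneg_left h3 hε.le).trans ?_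
    rw [div_mul_eq_mul_div, div_le_div_iff₀ (by positivity) (by norm_num)]
    nlinarith
  have h4 : B * ((1 + 2 * (ξ / (2 * (D + 1))) / δ) * val) + ξ / (2 * (D + 1)) * R.card =
      B * val + ξ / (2 * (D + 1)) * (B * (2 / δ) * val + R.card) := by ring
  linarith

end BcrP
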